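import Mathlib

set_option autoImplicit false

open Polynomial Finset

namespace Pool.Agent.SC

section Frob

variable {W : Type*} [Field W] {q : ℕ}

/-- `x ↦ x ^ q` is additive. -/
def Fr (W : Type*) [Field W] (q : ℕ) : Prop := 0 < q ∧ ∀ x y : W, (x + y) ^ q = x ^ q + y ^ q

lemma Fr.sub (h : Fr W q) (x y : W) : (x - y) ^ q = x ^ q - y ^ q := by
  have := h.2 (x - y) y
  rw [sub_add_cancel] at this
  rw [this]; ring

lemma Fr.inj (h : Fr W q) {x y : W} (hxy : x ^ q = y ^ q) : x = y := by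
  have h1 := h.sub x y
  rw [hxy, sub_self] at h1
  have := pow_eq_zero_iff (h.1.ne') |>.1 h1
  exact sub_eq_zero.1 this

lemma Fr.pow (h : Fr W q) (k : ℕ) : Fr W (q ^ k) := by
  refine ⟨pow_pos h.1 k, ?_⟩
  induction k with
  | zero => intro x y; simp
  | succ k ih =>
    intro x y
    rw [pow_succ, pow_mul, pow_mul, pow_mul, ih, h.2]

/-- fixed by `x ↦ x ^ q`. -/
def Fix (q : ℕ) (x : W) : Prop := x ^ q = x

lemma Fix.add (h : Fr W q) {x y : W} (hx : Fix q x) (hy : Fix q y) : Fix q (x + y) := by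
  unfold Fix at *; rw [h.2, hx, hy]

lemma Fix.sub (h : Fr W q) {x y : W} (hx : Fix q x) (hy : Fix q y) : Fix q (x - y) := by
  unfold Fix at *; rw [h.sub, hx, hy]

lemma Fix.mul {x y : W} (hx : Fix q x) (hy : Fix q y) : Fix q (x * y) := by
  unfold Fix at *; rw [mul_pow, hx, hy]

lemma Fix.div {x y : W} (hx : Fix q x) (hy : Fix q y) : Fix q (x / y) := by
  unfold Fix at *; rw [div_pow, hx, hy]

lemma Fix.one : Fix q (1 : W) := by unfold Fix; simp

lemma Fix.pow {x : W} (hx : Fix q x) (k : ℕ) : Fix (q ^ k) x := by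
  induction k with
  | zero => unfold Fix; simp
  | succ k ih => unfold Fix at *; rw [pow_succ, pow_mul, ih, hx]

lemma Fix.of_two_three {x : W} (h2 : Fix (q ^ 2) x) (h3 : Fix (q ^ 3) x) : Fix q x := by
  unfold Fix at *
  have : x ^ q ^ 3 = (x ^ q ^ 2) ^ q := by rw [← pow_mul]; congr 1
  rw [this, h2] at h3
  exact h3

/-- linear independence of `1, θ` over the fixed field -/
lemma lin (h : Fr W q) {θ a b a' b' : W} (hθ : ¬ Fix q θ) (ha : Fix q a) (hb : Fix q b)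
    (ha' : Fix q a') (hb' : Fix q b') (he : a * θ + b = a' * θ + b') : a = a' ∧ b = b' := by
  by_cases haa : a = a'
  · subst haa
    exact ⟨rfl, by linear_combination he⟩
  · exfalso
    have h1 : a - a' ≠ 0 := sub_ne_zero.2 haa
    have h2 : θ = (b' - b) / (a - a') := by
      rw [eq_div_iff h1]; linear_combination he
    exact hθ (h2 ▸ (Fix.sub h hb' hb).div (Fix.sub h ha ha'))

/-- Sidon property of `θ + K`. -/
lemma sidonL (h : Fr W q) {θ z₁ z₂ z₃ z₄ : W} (hθ : ¬ Fix q θ) (h1 : Fix q z₁) (h2 : Fix q z₂)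
    (h3 : Fix q z₃) (h4 : Fix q z₄) (he : (θ + z₁) * (θ + z₂) = (θ + z₃) * (θ + z₄)) :
    (z₁ = z₃ ∧ z₂ = z₄) ∨ (z₁ = z₄ ∧ z₂ = z₃) := by
  obtain ⟨e1, e2⟩ := lin h (θ := θ) (a := z₁ + z₂) (b := z₁ * z₂) (a' := z₃ + z₄) (b' := z₃ * z₄) hθ
    (Fix.add h h1 h2) (h1.mul h2) (Fix.add h h3 h4) (h3.mul h4) (by linear_combination he)
  have e3 : (z₁ - z₃) * (z₁ - z₄) = 0 := by linear_combination z₁ * e1 - e2
  rcases mul_eq_zero.1 e3 with h5 | h5
  · left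
    have h6 := sub_eq_zero.1 h5
    exact ⟨h6, by rw [h6] at e1; exact add_left_cancel e1⟩
  · right
    have h6 := sub_eq_zero.1 h5
    refine ⟨h6, ?_⟩
    rw [h6, add_comm z₃ z₄] at e1
    exact add_left_cancel e1

/-- the quadratic with roots `α, α ^ q`. -/
def R (q : ℕ) (α t : W) : W := (t - α) * (t - α ^ q)

lemma R_fix {N : ℕ} (hN : Fr W N) {α t : W} (hα : Fix N α) (ht : Fix N t) : Fix N (R q α t) := by
  unfold R
  have h1 : Fix N (α ^ q) := by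
    unfold Fix at *; rw [← pow_mul, mul_comm, pow_mul, hα]
  exact (Fix.sub hN ht hα).mul (Fix.sub hN ht h1)

lemma R_pow (h : Fr W q) {α : W} (hα : Fix (q ^ 2) α) (t : W) : (R q α t) ^ q = R q α (t ^ q) := by
  unfold R
  have h2 : (α ^ q) ^ q = α := by
    rw [← pow_mul, ← pow_two]; exact hα
  rw [mul_pow, h.sub, h.sub, h2]; ring

lemma R_conj {α : W} (hα : Fix (q ^ 2) α) (t : W) : R q (α ^ q) t = R q α t := by
  unfold R
  have h2 : (α ^ q) ^ q = α := by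
    rw [← pow_mul, ← pow_two]; exact hα
  rw [h2]; ring

lemma R_fix3 (h : Fr W q) {ϑ x : W} (hϑ : Fix (q ^ 3) ϑ) (hx : Fix (q ^ 2) x) :
    Fix (q ^ 3) (R q x ϑ) := by
  unfold Fix
  have a1 : (R q x ϑ) ^ (q ^ 3) = R q x (ϑ ^ (q ^ 3)) := by
    have : q ^ 3 = q * q * q := by ring
    rw [this, pow_mul, pow_mul, R_pow h hx, R_pow h hx, R_pow h hx, ← pow_mul, ← pow_mul,
      mul_assoc]
  rw [a1, hϑ]

/-- coefficients of `R_α - R_θ`. -/
def uc (q : ℕ) (θ α : W) : W := (θ + θ ^ q) - (α + α ^ q)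
/-- coefficients of `R_α - R_θ`. -/
def vc (q : ℕ) (θ α : W) : W := α * α ^ q - θ * θ ^ q

lemma R_eq (θ α t : W) : R q α t = R q θ t + uc q θ α * t + vc q θ α := by
  unfold R uc vc; ring

lemma R_self (θ α : W) : R q α θ = uc q θ α * θ + vc q θ α := by
  unfold R uc vc; ring

lemma tr_fix (h : Fr W q) {α : W} (hα : Fix (q ^ 2) α) : Fix q (α + α ^ q) := by
  unfold Fix
  have h2 : (α ^ q) ^ q = α := by rw [← pow_mul, ← pow_two]; exact hα
  rw [h.2, h2]; ring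

lemma nm_fix {α : W} (hα : Fix (q ^ 2) α) : Fix q (α * α ^ q) := by
  unfold Fix
  have h2 : (α ^ q) ^ q = α := by rw [← pow_mul, ← pow_two]; exact hα
  rw [mul_pow, h2]; ring

lemma uc_fix (h : Fr W q) {θ α : W} (hθ : Fix (q ^ 2) θ) (hα : Fix (q ^ 2) α) :
    Fix q (uc q θ α) := Fix.sub h (tr_fix h hθ) (tr_fix h hα)

lemma vc_fix (h : Fr W q) {θ α : W} (hθ : Fix (q ^ 2) θ) (hα : Fix (q ^ 2) α) :
    Fix q (vc q θ α) := Fix.sub h (nm_fix hα) (nm_fix hθ)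

lemma R_ne {N : ℕ} {α t : W} (hα : Fix N α) (ht : ¬ Fix N t) : R q α t ≠ 0 := by
  unfold R
  have h1 : Fix N (α ^ q) := by
    unfold Fix at *; rw [← pow_mul, mul_comm, pow_mul, hα]
  intro h
  rcases mul_eq_zero.1 h with h2 | h2
  · exact ht (sub_eq_zero.1 h2 ▸ hα)
  · exact ht (sub_eq_zero.1 h2 ▸ h1)

/-- Sidon property of the quadratics: `x_α = R_α(ϑ) / R_α(θ)`. -/
lemma sidonQ (h : Fr W q) {θ ϑ α β γ δ : W} (hθ : Fix (q ^ 2) θ) (hθ' : ¬ Fix q θ)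
    (hϑ : Fix (q ^ 3) ϑ) (hϑ' : ¬ Fix q ϑ) (hα : Fix (q ^ 2) α) (hβ : Fix (q ^ 2) β)
    (hγ : Fix (q ^ 2) γ) (hδ : Fix (q ^ 2) δ)
    (nα : R q α θ ≠ 0) (nβ : R q β θ ≠ 0) (nγ : R q γ θ ≠ 0) (nδ : R q δ θ ≠ 0)
    (he : (R q α ϑ / R q α θ) * (R q β ϑ / R q β θ) = (R q γ ϑ / R q γ θ) * (R q δ ϑ / R q δ θ)) :
    α = γ ∨ α = γ ^ q ∨ α = δ ∨ α = δ ^ q := by
  classical
  have hϑ2 : ¬ Fix (q ^ 2) ϑ := fun h2 => hϑ' (h2.of_two_three hϑ)
  have hF2 := h.pow 2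
  have hF3 := h.pow 3
  have mα : R q α ϑ ≠ 0 := R_ne hα hϑ2
  have mβ : R q β ϑ ≠ 0 := R_ne hβ hϑ2
  have mγ : R q γ ϑ ≠ 0 := R_ne hγ hϑ2
  have mδ : R q δ ϑ ≠ 0 := R_ne hδ hϑ2
  -- all conjugates of ϑ and θ
  set c := (R q α θ * R q β θ) / (R q γ θ * R q δ θ) with hc
  have hcne : c ≠ 0 := div_ne_zero (mul_ne_zero nα nβ) (mul_ne_zero nγ nδ)
  have hc' : c = (R q α ϑ * R q β ϑ) / (R q γ ϑ * R q δ ϑ) := by
    rw [hc]
    field_simp at he ⊢
    linear_combination -he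
  -- c is fixed by q: as a function of the coefficients
  have hcq2 : Fix (q ^ 2) c := by
    rw [hc]
    exact ((R_fix hF2 hα hθ).mul (R_fix hF2 hβ hθ)).div ((R_fix hF2 hγ hθ).mul (R_fix hF2 hδ hθ))
  have hcq : Fix q c := by
    apply hcq2.of_two_three
    -- c ^ (q^3) = c, from the expression in ϑ
    have e1 : ∀ x : W, Fix (q ^ 2) x → (R q x ϑ) ^ (q ^ 3) = R q x ϑ := by
      intro x hx
      have : (R q x ϑ) ^ (q ^ 3) = R q x (ϑ ^ (q ^ 3)) := by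
        have a1 : ∀ t : W, (R q x t) ^ (q ^ 3) = R q x (t ^ (q ^ 3)) := by
          intro t
          have : q ^ 3 = q * q * q := by ring
          rw [this, pow_mul, pow_mul, R_pow h hx, R_pow h hx, R_pow h hx, ← pow_mul, ← pow_mul,
            mul_assoc]
        exact a1 ϑ
      rw [this, hϑ]
    unfold Fix
    rw [hc', div_pow, mul_pow, mul_pow, e1 α hα, e1 β hβ, e1 γ hγ, e1 δ hδ]
  -- the polynomial
  let G : W[X] := (X - C α) * (X - C (α ^ q)) * ((X - C β) * (X - C (β ^ q))) -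
    C c * ((X - C γ) * (X - C (γ ^ q)) * ((X - C δ) * (X - C (δ ^ q))))
  have hGeval : ∀ t : W, G.eval t = R q α t * R q β t - c * (R q γ t * R q δ t) := by
    intro t; simp [G, R]
  have hGdeg : G.natDegree ≤ 4 := by
    have d1 : ∀ a b c d : W, ((X - C a) * (X - C b) * ((X - C c) * (X - C d))).natDegree ≤ 4 := by
      intro a b c d
      refine natDegree_mul_le.trans ?_
      have := natDegree_mul_le (p := X - C a) (q := X - C b)
      have := natDegree_mul_le (p := X - C c) (q := X - C d)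
      simp only [natDegree_X_sub_C] at *
      omega
    refine (natDegree_sub_le _ _).trans (max_le (d1 _ _ _ _) ?_)
    exact (natDegree_C_mul_le _ _).trans (d1 _ _ _ _)
  have hGpow : ∀ t : W, G.eval t = 0 → G.eval (t ^ q) = 0 := by
    intro t ht
    rw [hGeval] at ht ⊢
    have : (R q α t * R q β t - c * (R q γ t * R q δ t)) ^ q = 0 := by
      rw [ht, zero_pow h.1.ne']
    rw [h.sub, mul_pow, mul_pow, mul_pow, R_pow h hα, R_pow h hβ, R_pow h hγ, R_pow h hδ,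
      show c ^ q = c from hcq] at this
    exact this
  have g1 : G.eval θ = 0 := by
    rw [hGeval, hc]; field_simp; ring
  have g2 : G.eval ϑ = 0 := by
    rw [hGeval, hc']; field_simp; ring
  have g3 := hGpow _ g1
  have g4 := hGpow _ g2
  have g5 := hGpow _ g4
  have hθq : Fix (q ^ 2) (θ ^ q) := by
    unfold Fix at *; rw [← pow_mul, mul_comm, pow_mul, hθ]
  have nf2 : ∀ t : W, ¬ Fix (q ^ 2) t → ¬ Fix (q ^ 2) (t ^ q) := by
    intro t ht h2
    apply ht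
    unfold Fix at *
    rw [← pow_mul, mul_comm, pow_mul] at h2
    exact h.inj h2
  have hϑ2' := nf2 _ hϑ2
  have hϑ2'' := nf2 _ hϑ2'
  have nf1 : ∀ t : W, ¬ Fix q t → ¬ Fix q (t ^ q) := by
    intro t ht h2
    apply ht
    unfold Fix at *
    exact h.inj h2
  have hϑ1' := nf1 _ hϑ'
  have d12 : θ ≠ θ ^ q := fun e => hθ' e.symm
  have d34 : ϑ ≠ ϑ ^ q := fun e => hϑ' e.symm
  have d45 : ϑ ^ q ≠ (ϑ ^ q) ^ q := fun e => hϑ1' e.symm
  have d35 : ϑ ≠ (ϑ ^ q) ^ q := by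
    intro e; apply hϑ2; unfold Fix; rw [pow_two, pow_mul]; exact e.symm
  have c13 : θ ≠ ϑ := fun e => hϑ2 (e ▸ hθ)
  have c14 : θ ≠ ϑ ^ q := fun e => hϑ2' (e ▸ hθ)
  have c15 : θ ≠ (ϑ ^ q) ^ q := fun e => hϑ2'' (e ▸ hθ)
  have c23 : θ ^ q ≠ ϑ := fun e => hϑ2 (e ▸ hθq)
  have c24 : θ ^ q ≠ ϑ ^ q := fun e => hϑ2' (e ▸ hθq)
  have c25 : θ ^ q ≠ (ϑ ^ q) ^ q := fun e => hϑ2'' (e ▸ hθq)
  have hG0 : G = 0 := by
    apply eq_zero_of_natDegree_lt_card_of_eval_eq_zero' G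
      ({θ, θ ^ q, ϑ, ϑ ^ q, (ϑ ^ q) ^ q} : Finset W)
    · intro t ht
      simp only [mem_insert, mem_singleton] at ht
      rcases ht with rfl | rfl | rfl | rfl | rfl
      · exact g1
      · exact g3
      · exact g2
      · exact g4
      · exact g5
    · have : ({θ, θ ^ q, ϑ, ϑ ^ q, (ϑ ^ q) ^ q} : Finset W).card = 5 := by
        rw [card_insert_of_notMem, card_insert_of_notMem, card_insert_of_notMem,
          card_insert_of_notMem, card_singleton] <;> simp [*]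
      omega
  have hev := hGeval α
  rw [hG0, eval_zero] at hev
  have hRα : R q α α = 0 := by unfold R; ring
  rw [hRα, zero_mul, zero_sub, zero_eq_neg] at hev
  rcases mul_eq_zero.1 hev with h1 | h1
  · exact absurd h1 hcne
  · rcases mul_eq_zero.1 h1 with h2 | h2
    · unfold R at h2
      rcases mul_eq_zero.1 h2 with h3 | h3
      · exact Or.inl (sub_eq_zero.1 h3)
      · exact Or.inr (Or.inl (sub_eq_zero.1 h3))
    · unfold R at h2
      rcases mul_eq_zero.1 h2 with h3 | h3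
      · exact Or.inr (Or.inr (Or.inl (sub_eq_zero.1 h3)))
      · exact Or.inr (Or.inr (Or.inr (sub_eq_zero.1 h3)))

/-- the point `z` attached to `α` and a parameter `h₀`. -/
noncomputable def Zf (q : ℕ) (θ ϑ α h₀ : W) : W :=
  (((1 + uc q θ α * h₀) / vc q θ α) * ϑ + h₀) * (R q α θ * (R q α θ) ^ q) / R q α ϑ -
    (vc q θ α * h₀ + (θ * θ ^ q) * uc q θ α * ((1 + uc q θ α * h₀) / vc q θ α) +
      (θ + θ ^ q) * vc q θ α * ((1 + uc q θ α * h₀) / vc q θ α))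

/-- Relation (P): quadratics below the line `θ + K`, ratio 3/2. -/
lemma relP (h : Fr W q) {θ ϑ α β z z' : W} (hθ : Fix (q ^ 2) θ) (hθ' : ¬ Fix q θ)
    (hϑ : Fix (q ^ 3) ϑ) (hϑ' : ¬ Fix q ϑ) (hα : Fix (q ^ 2) α) (hβ : Fix (q ^ 2) β)
    (hz : Fix (q ^ 3) z) (hz' : Fix (q ^ 3) z')
    (nα : R q α θ ≠ 0) (hv : vc q θ α ≠ 0) (hne : z ≠ z')
    (hrel : (θ + z') * R q β ϑ * R q α θ = (θ + z) * R q α ϑ * R q β θ) :
    ∃ h₀ : W, Fix q h₀ ∧ z = Zf q θ ϑ α h₀ := by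
  have hϑ2 : ¬ Fix (q ^ 2) ϑ := fun h2 => hϑ' (h2.of_two_three hϑ)
  have hθ3 : ¬ Fix (q ^ 3) θ := fun h3 => hθ' (hθ.of_two_three h3)
  have mα : R q α ϑ ≠ 0 := R_ne hα hϑ2
  have mθ : R q θ ϑ ≠ 0 := R_ne hθ hϑ2
  have hF3 := h.pow 3
  -- fixedness
  have fu := uc_fix h hθ hα
  have fv := vc_fix h hθ hα
  have fu' := uc_fix h hθ hβ
  have fv' := vc_fix h hθ hβ
  have fτ := tr_fix h hθ
  have fν := nm_fix hθ
  have hR3 : ∀ x : W, Fix (q ^ 2) x → Fix (q ^ 3) (R q x ϑ) := fun x hx => R_fix3 h hϑ hx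
  have gκ := hR3 α hα
  have gκ' := hR3 β hβ
  have gu := fu.pow 3
  have gv := fv.pow 3
  have gu' := fu'.pow 3
  have gv' := fv'.pow 3
  have gτ := fτ.pow 3
  have gν := fν.pow 3
  have eκ : R q α ϑ = R q θ ϑ + uc q θ α * ϑ + vc q θ α := R_eq θ α ϑ
  have eκ' : R q β ϑ = R q θ ϑ + uc q θ β * ϑ + vc q θ β := R_eq θ β ϑ
  have ef : R q α θ = uc q θ α * θ + vc q θ α := R_self θ α
  have ef' : R q β θ = uc q θ β * θ + vc q θ β := R_self θ β
  have eN : R q α θ * (R q α θ) ^ q = vc q θ α ^ 2 + (θ + θ ^ q) * uc q θ α * vc q θ α +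
      (θ * θ ^ q) * uc q θ α ^ 2 := by
    rw [ef, h.2, mul_pow, show (uc q θ α) ^ q = uc q θ α from fu,
      show (vc q θ α) ^ q = vc q θ α from fv]
    ring
  have hN : R q α θ * (R q α θ) ^ q ≠ 0 := mul_ne_zero nα (pow_ne_zero _ nα)
  unfold Zf
  rw [eN] at hN ⊢
  rw [ef, ef'] at hrel
  set κ := R q α ϑ with hκ
  set κ' := R q β ϑ with hκ'
  set Q := R q θ ϑ with hQ
  set u := uc q θ α with hu
  set v := vc q θ α with hvv
  set u' := uc q θ β with hu'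
  set v' := vc q θ β with hv'
  set τ := θ + θ ^ q with hτ
  set ν := θ * θ ^ q with hν
  have hθθ : θ * θ = τ * θ - ν := by rw [hτ, hν]; ring
  obtain ⟨e1, e2⟩ := lin hF3 (θ := θ) (a := κ' * (u * τ + v + u * z')) (b := κ' * (z' * v - u * ν))
    (a' := κ * (u' * τ + v' + u' * z)) (b' := κ * (z * v' - u' * ν)) hθ3
    (gκ'.mul (Fix.add hF3 (Fix.add hF3 (gu.mul gτ) gv) (gu.mul hz')))
    (gκ'.mul (Fix.sub hF3 (hz'.mul gv) (gu.mul gν)))
    (gκ.mul (Fix.add hF3 (Fix.add hF3 (gu'.mul gτ) gv') (gu'.mul hz)))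
    (gκ.mul (Fix.sub hF3 (hz.mul gv') (gu'.mul gν)))
    (by linear_combination hrel - (κ' * u - κ * u') * hθθ)
  have e3 : κ' * (v ^ 2 + τ * u * v + ν * u ^ 2) =
      κ * (v * v' + ν * u * u' + τ * v * u' + z * (v * u' - u * v')) := by
    linear_combination v * e1 - u * e2
  have hb : v * u' - u * v' ≠ 0 := by
    intro hb0
    -- then `u' = λ u`, `v' = λ v`
    have hl : ∃ l : W, u' = l * u ∧ v' = l * v := by
      refine ⟨v' / v, ?_, by field_simp⟩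
      field_simp
      linear_combination hb0
    obtain ⟨l, hl1, hl2⟩ := hl
    have e4 : κ' = l * κ := by
      have : (κ' - l * κ) * (v ^ 2 + τ * u * v + ν * u ^ 2) = 0 := by
        rw [hl1, hl2] at e3
        linear_combination e3
      rcases mul_eq_zero.1 this with h5 | h5
      · exact sub_eq_zero.1 h5
      · exact absurd h5 hN
    have e5 : Q * (1 - l) = 0 := by
      have e6 : κ' = Q + l * (κ - Q) := by
        rw [eκ', hl1, hl2, eκ]; ring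
      linear_combination e4 - e6
    have hl0 : l = 1 := by
      rcases mul_eq_zero.1 e5 with h5 | h5
      · exact absurd h5 mθ
      · exact (sub_eq_zero.1 h5).symm
    rw [hl0, one_mul] at hl1 hl2 e4
    rw [e4, hl1] at e1
    rw [e4, hl1, hl2] at e2
    have : κ * v * (z' - z) = 0 := by linear_combination e2
    rcases mul_eq_zero.1 this with h5 | h5
    · exact (mul_ne_zero mα hv) h5
    · exact hne (sub_eq_zero.1 h5).symm
  refine ⟨(v' - v) / (v * u' - u * v'), (Fix.sub h fv' fv).div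
    (Fix.sub h (fv.mul fu') (fu.mul fv')), ?_⟩
  have hh1 : (1 + u * ((v' - v) / (v * u' - u * v'))) / v = (u' - u) / (v * u' - u * v') := by
    field_simp
    ring
  rw [hh1]
  have e7 : κ' = κ + (u' - u) * ϑ + (v' - v) := by rw [eκ', eκ]; ring
  rw [e7] at e3
  have mα' : κ ≠ 0 := mα
  have e8 : (κ + (u' - u) * ϑ + (v' - v)) * (v ^ 2 + τ * u * v + ν * u ^ 2) =
    κ * (v * v' + ν * u * u' + τ * v * u') + κ * z * (v * u' - u * v') := by
    linear_combination e3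
  clear e3 hh1 e1 e2
  generalize v * u' - u * v' = b at hb e8 ⊢
  field_simp
  linear_combination -e8

/-- Relation (T): the line `θ + K` below the quadratics over the quadratic extension, ratio 4/3. -/
lemma relT {q' : ℕ} (h : Fr W q') {θ θ' ϑ' α β z z' : W}
    (hθ : Fix q' θ) (hθ2 : Fix (q' ^ 2) θ') (hθ' : ¬ Fix q' θ')
    (hϑ : Fix (q' ^ 3) ϑ') (hϑ' : ¬ Fix q' ϑ') (hα : Fix (q' ^ 2) α) (hβ : Fix (q' ^ 2) β)
    (hz : Fix (q' ^ 3) z) (hz' : Fix (q' ^ 3) z')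
    (nα : R q' α θ' ≠ 0) (nβ : R q' β θ' ≠ 0) (hne : z ≠ z') (hz0 : θ + z ≠ 0)
    (hrel : (θ + z) * R q' β ϑ' * R q' α θ' = (θ + z') * R q' α ϑ' * R q' β θ') :
    ∃ l : W, Fix q' l ∧ l ≠ 0 ∧ 1 - l ≠ 0 ∧
      (z' - z) * l * R q' α ϑ' = (1 - l) * R q' θ' ϑ' * (θ + z) := by
  have hϑ2 : ¬ Fix (q' ^ 2) ϑ' := fun h2 => hϑ' (h2.of_two_three hϑ)
  have hθ3 : ¬ Fix (q' ^ 3) θ' := fun h3 => hθ' (hθ2.of_two_three h3)
  have mα : R q' α ϑ' ≠ 0 := R_ne hα hϑ2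
  have mβ : R q' β ϑ' ≠ 0 := R_ne hβ hϑ2
  have hF2 := h.pow 2
  have hF3 := h.pow 3
  have hR3 : ∀ x : W, Fix (q' ^ 2) x → Fix (q' ^ 3) (R q' x ϑ') := fun x hx => R_fix3 h hϑ hx
  have hz'0 : θ + z' ≠ 0 := by
    intro h0
    rw [h0, zero_mul, zero_mul] at hrel
    exact (mul_ne_zero (mul_ne_zero hz0 mβ) nα) hrel
  set l := R q' β θ' / R q' α θ' with hl
  have hl2 : Fix (q' ^ 2) l := (R_fix hF2 hβ hθ2).div (R_fix hF2 hα hθ2)
  have hl3' : l = ((θ + z) * R q' β ϑ') / ((θ + z') * R q' α ϑ') := by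
    rw [hl]; field_simp; linear_combination -hrel
  have hl3 : Fix (q' ^ 3) l := by
    rw [hl3']
    exact ((Fix.add hF3 (hθ.pow 3) hz).mul (hR3 β hβ)).div
      ((Fix.add hF3 (hθ.pow 3) hz').mul (hR3 α hα))
  have hlf : Fix q' l := hl2.of_two_three hl3
  have hl0 : l ≠ 0 := div_ne_zero nβ nα
  have ef : R q' α θ' = uc q' θ' α * θ' + vc q' θ' α := R_self θ' α
  have ef' : R q' β θ' = uc q' θ' β * θ' + vc q' θ' β := R_self θ' β
  have hfl : R q' β θ' = l * R q' α θ' := by rw [hl]; field_simp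
  obtain ⟨e1, e2⟩ := lin h (θ := θ') (a := uc q' θ' β) (b := vc q' θ' β)
    (a' := l * uc q' θ' α) (b' := l * vc q' θ' α) hθ'
    (uc_fix h hθ2 hβ) (vc_fix h hθ2 hβ) (hlf.mul (uc_fix h hθ2 hα)) (hlf.mul (vc_fix h hθ2 hα))
    (by rw [← ef', hfl, ef]; ring)
  have eκ : R q' α ϑ' = R q' θ' ϑ' + uc q' θ' α * ϑ' + vc q' θ' α := R_eq θ' α ϑ'
  have eκ' : R q' β ϑ' = R q' θ' ϑ' + l * (R q' α ϑ' - R q' θ' ϑ') := by
    rw [R_eq θ' β ϑ', e1, e2, eκ]; ring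
  have e3 : (z' - z) * l * R q' α ϑ' = (1 - l) * R q' θ' ϑ' * (θ + z) := by
    have e4 : R q' α θ' * ((z' - z) * l * R q' α ϑ' - (1 - l) * R q' θ' ϑ' * (θ + z)) = 0 := by
      rw [hfl, eκ'] at hrel
      linear_combination -hrel
    rcases mul_eq_zero.1 e4 with h5 | h5
    · exact absurd h5 nα
    · exact sub_eq_zero.1 h5
  refine ⟨l, hlf, hl0, ?_, e3⟩
  intro h1l
  rw [h1l, zero_mul, zero_mul] at e3
  exact (mul_ne_zero (mul_ne_zero (sub_ne_zero.2 hne.symm) hl0) mα) e3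

end Frob

end Pool.Agent.SC
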