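import Mathlib

set_option autoImplicit false

namespace Pool.Agent.SC

theorem deletion {W : Type*} [Field W] [DecidableEq W] (S : ℕ → Finset W)
    (h0 : ∀ k, (0 : W) ∉ S k)
    (hS : ∀ k, ∀ a ∈ S k, ∀ b ∈ S k, ∀ c ∈ S k, ∀ d ∈ S k, a * b = c * d →
      (a = c ∧ b = d) ∨ (a = d ∧ b = c))
    (hadj : ∀ k, ∀ a ∈ S k, ∀ b ∈ S k, ∀ c ∈ S (k + 1), ∀ d ∈ S (k + 1), a * c = b * d → a = b)
    (hcard : ∀ k, 2 * ∑ i ∈ Finset.range (k - 1), (S i).card ^ 2 ≤ (S k).card) :
    ∃ S' : ℕ → Finset W, (∀ k, S' k ⊆ S k) ∧ (∀ k, (S k).card ≤ 2 * (S' k).card) ∧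
      ∀ i k, i < k → ∀ a ∈ S' i, ∀ b ∈ S' i, ∀ c ∈ S' k, ∀ d ∈ S' k,
        a * c = b * d → a = b ∧ c = d := by
  classical
  let piece : ℕ → W × W → Finset W := fun k p =>
    if p.1 = p.2 then ∅ else (S k).filter (fun c => ∃ d ∈ S k, p.1 * c = p.2 * d)
  let bad : ℕ → Finset W := fun k =>
    (Finset.range (k - 1)).biUnion (fun i => ((S i) ×ˢ (S i)).biUnion (fun p => piece k p))
  have hne : ∀ k, ∀ a ∈ S k, a ≠ 0 := fun k a ha h => h0 k (h ▸ ha)
  have hpiece : ∀ k i, ∀ p ∈ (S i) ×ˢ (S i), (piece k p).card ≤ 1 := by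
    intro k i p hp
    rw [Finset.mem_product] at hp
    by_cases hpe : p.1 = p.2
    · simp [piece, hpe]
    · simp only [piece, if_neg hpe]
      rw [Finset.card_le_one]
      intro c hc c' hc'
      rw [Finset.mem_filter] at hc hc'
      obtain ⟨hcS, d, hd, h1⟩ := hc
      obtain ⟨hcS', d', hd', h2⟩ := hc'
      have hp1 : p.1 ≠ 0 := hne i _ hp.1
      have hp2 : p.2 ≠ 0 := hne i _ hp.2
      have hprod : c * d' = c' * d := by
        have h3 : p.1 * p.2 * (c * d') = p.1 * p.2 * (c' * d) := by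
          calc p.1 * p.2 * (c * d') = (p.1 * c) * (p.2 * d') := by ring
            _ = (p.2 * d) * (p.1 * c') := by rw [h1, ← h2]
            _ = p.1 * p.2 * (c' * d) := by ring
        exact mul_left_cancel₀ (mul_ne_zero hp1 hp2) h3
      rcases hS k c hcS d' hd' c' hcS' d hd hprod with h | h
      · exact h.1
      · exfalso
        apply hpe
        have hd0 : d ≠ 0 := hne k d hd
        rw [h.1] at h1
        exact mul_right_cancel₀ hd0 h1
  have hbad : ∀ k, (bad k).card ≤ ∑ i ∈ Finset.range (k - 1), (S i).card ^ 2 := by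
    intro k
    refine le_trans Finset.card_biUnion_le ?_
    apply Finset.sum_le_sum
    intro i _
    refine le_trans Finset.card_biUnion_le ?_
    refine le_trans (Finset.sum_le_sum (fun p hp => hpiece k i p hp)) ?_
    rw [Finset.sum_const, smul_eq_mul, mul_one, Finset.card_product, sq]
  refine ⟨fun k => S k \ bad k, fun k => Finset.sdiff_subset, ?_, ?_⟩
  · intro k
    have h1 := hbad k
    have h2 := hcard k
    have h3 : (S k).card - (bad k).card ≤ (S k \ bad k).card := Finset.le_card_sdiff _ _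
    show (S k).card ≤ 2 * (S k \ bad k).card
    omega
  · intro i k hik a ha b hb c hc d hd habcd
    rw [Finset.mem_sdiff] at ha hb hc hd
    have hab : a = b := by
      by_cases hk : k = i + 1
      · subst hk
        exact hadj i a ha.1 b hb.1 c hc.1 d hd.1 habcd
      · by_contra hab
        apply hc.2
        simp only [bad, Finset.mem_biUnion, Finset.mem_range]
        refine ⟨i, by omega, (a, b), ?_, ?_⟩
        · rw [Finset.mem_product]
          exact ⟨ha.1, hb.1⟩
        · simp only [piece, if_neg hab]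
          rw [Finset.mem_filter]
          exact ⟨hc.1, d, hd.1, habcd⟩
    refine ⟨hab, ?_⟩
    subst hab
    exact mul_left_cancel₀ (hne i a ha.1) habcd

end Pool.Agent.SC
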