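import Mathlib

/-!
# Embedding of a chain of multiplicative Sidon sets in the positive integers

Weights: `wt r k = 8 ^ k * ∏ j < k, r j`.  The element `x` of level `k` with the digits `e j` is sent to
`wt r k + 4 * ∑ j ≤ k, e j * wt r j` (the marker of level `k` lies below the digit `k`).
-/

set_option autoImplicit false

open Finset

namespace Pool.Agent.SC

/-- Sidon sets of natural numbers. -/
def IsSidon (A : Set ℕ) : Prop :=
  ∀ a ∈ A, ∀ b ∈ A, ∀ c ∈ A, ∀ d ∈ A, a + b = c + d → (a = c ∧ b = d) ∨ (a = d ∧ b = c)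

/-- Mixed radix weights. -/
def wt (r : ℕ → ℕ) (k : ℕ) : ℕ := 8 ^ k * ∏ j ∈ range k, r j

lemma wt_zero (r : ℕ → ℕ) : wt r 0 = 1 := by simp [wt]

lemma wt_succ (r : ℕ → ℕ) (k : ℕ) : wt r (k + 1) = 8 * r k * wt r k := by
  unfold wt
  rw [prod_range_succ, pow_succ]
  ring

lemma wt_pos {r : ℕ → ℕ} (hr : ∀ j, 1 ≤ r j) (k : ℕ) : 0 < wt r k := by
  induction k with
  | zero => simp [wt]
  | succ k ih =>
    rw [wt_succ]
    have := hr k
    positivity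

lemma sum_lt_wt {r : ℕ → ℕ} (M : ℕ) (c : ℕ → ℕ) (hc : ∀ j < M, c j < 8 * r j) :
    ∑ j ∈ range M, c j * wt r j < wt r M := by
  induction M with
  | zero => simp [wt]
  | succ M ih =>
    rw [sum_range_succ, wt_succ]
    have h1 := ih (fun j hj => hc j (by omega))
    have h2 := hc M (by omega)
    have h3 : (c M + 1) * wt r M ≤ 8 * r M * wt r M := Nat.mul_le_mul_right _ h2
    nlinarith

lemma digits_inj {r : ℕ → ℕ} (hr : ∀ j, 1 ≤ r j) (M : ℕ) (c d : ℕ → ℕ) (hc : ∀ j < M, c j < 8 * r j)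
    (hd : ∀ j < M, d j < 8 * r j)
    (h : ∑ j ∈ range M, c j * wt r j = ∑ j ∈ range M, d j * wt r j) : ∀ j < M, c j = d j := by
  induction M with
  | zero => intro j hj; omega
  | succ M ih =>
    have hc' : ∀ j < M, c j < 8 * r j := fun i hi => hc i (by omega)
    have hd' : ∀ j < M, d j < 8 * r j := fun i hi => hd i (by omega)
    have h1 := sum_lt_wt M c hc'
    have h2 := sum_lt_wt M d hd'
    rw [sum_range_succ, sum_range_succ] at h
    have hB : 0 < wt r M := wt_pos hr M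
    have h5 : (∑ j ∈ range M, c j * wt r j + c M * wt r M) / wt r M = c M := by
      rw [Nat.add_mul_div_right _ _ hB, Nat.div_eq_of_lt h1, zero_add]
    have h6 : (∑ j ∈ range M, d j * wt r j + d M * wt r M) / wt r M = d M := by
      rw [Nat.add_mul_div_right _ _ hB, Nat.div_eq_of_lt h2, zero_add]
    have h7 : c M = d M := by rw [← h5, ← h6, h]
    have h8 : ∑ j ∈ range M, c j * wt r j = ∑ j ∈ range M, d j * wt r j := by
      rw [h7] at h; omega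
    intro i hi
    rcases Nat.lt_succ_iff_lt_or_eq.1 hi with h9 | h9
    · exact ih hc' hd' h8 i h9
    · rw [h9]; exact h7

/-- The code of the digits `e` at level `k`. -/
def cd (r : ℕ → ℕ) (k : ℕ) (e : ℕ → ℕ) : ℕ :=
  ∑ j ∈ range (k + 1), ((if j = k then 1 else 0) + 4 * e j) * wt r j

lemma cd_eq {r : ℕ → ℕ} {k M : ℕ} {e : ℕ → ℕ} (he : ∀ j, k < j → e j = 0) (hM : k < M) :
    cd r k e = ∑ j ∈ range M, ((if j = k then 1 else 0) + 4 * e j) * wt r j := by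
  unfold cd
  apply sum_subset (range_subset_range.2 hM)
  intro j _ hj2
  rw [mem_range] at hj2
  rw [he j (by omega), if_neg (by omega)]
  simp

lemma prod_ext {G : Type*} [CommMonoid G] {t : ℕ → G} {k M : ℕ} {e : ℕ → ℕ}
    (he : ∀ j, k < j → e j = 0) (hM : k < M) :
    ∏ j ∈ range (k + 1), t j ^ e j = ∏ j ∈ range M, t j ^ e j := by
  apply prod_subset (range_subset_range.2 hM)
  intro j _ hj2
  rw [mem_range] at hj2
  rw [he j (by omega), pow_zero]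

/-- Equality of two sums of codes. -/
lemma cd_decode {r : ℕ → ℕ} (hr : ∀ j, 1 ≤ r j) {k₁ k₂ k₃ k₄ : ℕ} {e₁ e₂ e₃ e₄ : ℕ → ℕ}
    (h1 : ∀ j, e₁ j < r j) (h2 : ∀ j, e₂ j < r j) (h3 : ∀ j, e₃ j < r j) (h4 : ∀ j, e₄ j < r j)
    (z1 : ∀ j, k₁ < j → e₁ j = 0) (z2 : ∀ j, k₂ < j → e₂ j = 0) (z3 : ∀ j, k₃ < j → e₃ j = 0)
    (z4 : ∀ j, k₄ < j → e₄ j = 0)
    (h : cd r k₁ e₁ + cd r k₂ e₂ = cd r k₃ e₃ + cd r k₄ e₄) :
    (∀ j, e₁ j + e₂ j = e₃ j + e₄ j) ∧ ((k₁ = k₃ ∧ k₂ = k₄) ∨ (k₁ = k₄ ∧ k₂ = k₃)) := by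
  have key : ∀ M, k₁ < M → k₂ < M → k₃ < M → k₄ < M → ∀ j < M,
      ((if j = k₁ then 1 else 0) + 4 * e₁ j) + ((if j = k₂ then 1 else 0) + 4 * e₂ j) =
      ((if j = k₃ then 1 else 0) + 4 * e₃ j) + ((if j = k₄ then 1 else 0) + 4 * e₄ j) := by
    intro M m1 m2 m3 m4
    rw [cd_eq z1 m1, cd_eq z2 m2, cd_eq z3 m3, cd_eq z4 m4, ← sum_add_distrib, ← sum_add_distrib] at h
    simp only [← add_mul] at h
    refine digits_inj hr M _ _ ?_ ?_ h
    · intro j _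
      have := h1 j
      have := h2 j
      split_ifs <;> omega
    · intro j _
      have := h3 j
      have := h4 j
      split_ifs <;> omega
  have key' : ∀ j, ((if j = k₁ then 1 else 0) + 4 * e₁ j) + ((if j = k₂ then 1 else 0) + 4 * e₂ j) =
      ((if j = k₃ then 1 else 0) + 4 * e₃ j) + ((if j = k₄ then 1 else 0) + 4 * e₄ j) := by
    intro j
    exact key (k₁ + k₂ + k₃ + k₄ + j + 1) (by omega) (by omega) (by omega) (by omega) j (by omega)
  constructor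
  · intro j
    have := key' j
    split_ifs at this <;> omega
  · have a1 := key' k₁
    have a2 := key' k₂
    have a3 := key' k₃
    have a4 := key' k₄
    simp only [if_true] at a1 a2 a3 a4
    by_cases c1 : k₁ = k₃
    · left
      refine ⟨c1, ?_⟩
      subst c1
      by_contra hne
      by_cases c2 : k₂ = k₁
      · subst c2
        rw [if_neg (fun h => hne h.symm)] at a4
        omega
      · rw [if_neg c2, if_neg hne] at a2
        omega
    · right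
      by_cases c2 : k₁ = k₄
      · refine ⟨c2, ?_⟩
        subst c2
        by_contra hne
        by_cases c3 : k₂ = k₁
        · subst c3
          rw [if_neg hne] at a2
          omega
        · rw [if_neg c3, if_neg hne] at a2
          omega
      · exfalso
        rw [if_neg c1, if_neg c2] at a1
        split_ifs at a1 <;> omega

lemma low_le {r : ℕ → ℕ} (hr : ∀ j, 1 ≤ r j) (k : ℕ) : ∑ j ∈ range k, 4 * r j * wt r j ≤ wt r k := by
  induction k with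
  | zero => simp
  | succ k ih =>
    rw [sum_range_succ, wt_succ]
    have h1 : wt r k ≤ r k * wt r k := Nat.le_mul_of_pos_left _ (hr k)
    nlinarith

lemma cd_le {r : ℕ → ℕ} (hr : ∀ j, 1 ≤ r j) {k D : ℕ} {e : ℕ → ℕ} (he : ∀ j, e j < r j) (hD : e k < D) :
    cd r k e ≤ 4 * D * wt r k := by
  unfold cd
  rw [sum_range_succ, if_pos rfl]
  have h1 : ∑ j ∈ range k, ((if j = k then 1 else 0) + 4 * e j) * wt r j ≤
      ∑ j ∈ range k, 4 * r j * wt r j := by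
    apply sum_le_sum
    intro j hj
    rw [mem_range] at hj
    rw [if_neg (by omega), zero_add]
    exact Nat.mul_le_mul_right _ (Nat.mul_le_mul_left _ (he j).le)
  have h2 := low_le hr k
  have h3 : (e k + 1) * wt r k ≤ D * wt r k := Nat.mul_le_mul_right _ hD
  nlinarith

lemma cd_pos {r : ℕ → ℕ} (hr : ∀ j, 1 ≤ r j) (k : ℕ) (e : ℕ → ℕ) : 1 ≤ cd r k e := by
  unfold cd
  rw [sum_range_succ, if_pos rfl]
  have := wt_pos hr k
  nlinarith [Nat.zero_le (∑ j ∈ range k, ((if j = k then 1 else 0) + 4 * e j) * wt r j),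
    Nat.zero_le (e k * wt r k)]

theorem embed {G : Type*} [CommMonoid G] [DecidableEq G] (t : ℕ → G) (r : ℕ → ℕ) (hr : ∀ j, 1 ≤ r j)
    (S : ℕ → Finset G) (e : ℕ → G → ℕ → ℕ)
    (hrep : ∀ k, ∀ x ∈ S k, (∀ j, e k x j < r j) ∧ (∀ j, k < j → e k x j = 0) ∧
      x = ∏ j ∈ Finset.range (k + 1), t j ^ e k x j)
    (hS : ∀ k, ∀ a ∈ S k, ∀ b ∈ S k, ∀ c ∈ S k, ∀ d ∈ S k, a * b = c * d →
      (a = c ∧ b = d) ∨ (a = d ∧ b = c))
    (hX : ∀ i k, i < k → ∀ a ∈ S i, ∀ b ∈ S i, ∀ c ∈ S k, ∀ d ∈ S k, a * c = b * d → a = b ∧ c = d) :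
    ∃ A : Set ℕ, IsSidon A ∧ ∀ k D, 1 ≤ D →
      ((S k).filter (fun x => e k x k < D)).card ≤
        (A ∩ Set.Icc 1 (4 * 8 ^ k * D * ∏ j ∈ Finset.range k, r j)).ncard := by
  classical
  let f : ℕ → G → ℕ := fun k x => cd r k (e k x)
  -- the products are equal
  have hprod : ∀ {k₁ k₂ k₃ k₄ : ℕ} {x₁ x₂ x₃ x₄ : G}, x₁ ∈ S k₁ → x₂ ∈ S k₂ → x₃ ∈ S k₃ → x₄ ∈ S k₄ →
      f k₁ x₁ + f k₂ x₂ = f k₃ x₃ + f k₄ x₄ →
      x₁ * x₂ = x₃ * x₄ ∧ ((k₁ = k₃ ∧ k₂ = k₄) ∨ (k₁ = k₄ ∧ k₂ = k₃)) := by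
    intro k₁ k₂ k₃ k₄ x₁ x₂ x₃ x₄ m1 m2 m3 m4 h
    obtain ⟨b1, z1, p1⟩ := hrep k₁ x₁ m1
    obtain ⟨b2, z2, p2⟩ := hrep k₂ x₂ m2
    obtain ⟨b3, z3, p3⟩ := hrep k₃ x₃ m3
    obtain ⟨b4, z4, p4⟩ := hrep k₄ x₄ m4
    obtain ⟨g1, g2⟩ := cd_decode hr b1 b2 b3 b4 z1 z2 z3 z4 h
    refine ⟨?_, g2⟩
    let M := k₁ + k₂ + k₃ + k₄ + 1
    rw [p1, p2, p3, p4, prod_ext z1 (show k₁ < M by omega), prod_ext z2 (show k₂ < M by omega),
      prod_ext z3 (show k₃ < M by omega), prod_ext z4 (show k₄ < M by omega), ← prod_mul_distrib,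
      ← prod_mul_distrib]
    apply prod_congr rfl
    intro j _
    rw [← pow_add, ← pow_add, g1 j]
  refine ⟨{n | ∃ k, ∃ x ∈ S k, n = f k x}, ?_, ?_⟩
  · rintro _ ⟨k₁, x₁, m1, rfl⟩ _ ⟨k₂, x₂, m2, rfl⟩ _ ⟨k₃, x₃, m3, rfl⟩ _ ⟨k₄, x₄, m4, rfl⟩ h
    obtain ⟨hp, hk⟩ := hprod m1 m2 m3 m4 h
    rcases hk with ⟨rfl, rfl⟩ | ⟨rfl, rfl⟩
    · -- levels k₁ k₂ = k₁ k₂
      rcases lt_trichotomy k₁ k₂ with hlt | heq | hgt
      · obtain ⟨c1, c2⟩ := hX k₁ k₂ hlt x₁ m1 x₃ m3 x₂ m2 x₄ m4 hp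
        left
        rw [c1, c2]
        exact ⟨rfl, rfl⟩
      · subst heq
        rcases hS k₁ x₁ m1 x₂ m2 x₃ m3 x₄ m4 hp with ⟨c1, c2⟩ | ⟨c1, c2⟩
        · left
          rw [c1, c2]
          exact ⟨rfl, rfl⟩
        · right
          rw [c1, c2]
          exact ⟨rfl, rfl⟩
      · obtain ⟨c1, c2⟩ := hX k₂ k₁ hgt x₂ m2 x₄ m4 x₁ m1 x₃ m3 (by rw [mul_comm x₂, mul_comm x₄]; exact hp)
        left
        rw [c1, c2]
        exact ⟨rfl, rfl⟩
    · rcases lt_trichotomy k₁ k₂ with hlt | heq | hgt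
      · obtain ⟨c1, c2⟩ := hX k₁ k₂ hlt x₁ m1 x₄ m4 x₂ m2 x₃ m3 (by rw [mul_comm x₄]; exact hp)
        right
        rw [c1, c2]
        exact ⟨rfl, rfl⟩
      · subst heq
        rcases hS k₁ x₁ m1 x₂ m2 x₃ m3 x₄ m4 hp with ⟨c1, c2⟩ | ⟨c1, c2⟩
        · left
          rw [c1, c2]
          exact ⟨rfl, rfl⟩
        · right
          rw [c1, c2]
          exact ⟨rfl, rfl⟩
      · obtain ⟨c1, c2⟩ := hX k₂ k₁ hgt x₂ m2 x₃ m3 x₁ m1 x₄ m4 (by rw [mul_comm x₂]; exact hp)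
        right
        rw [c1, c2]
        exact ⟨rfl, rfl⟩
  · intro k D hD
    have hinj : Set.InjOn (f k) (S k) := by
      intro x hx y hy hxy
      have h := hprod hx hx hy hy (by rw [hxy])
      rcases hS k x hx x hx y hy y hy h.1 with ⟨c1, _⟩ | ⟨c1, _⟩
      · exact c1
      · exact c1
    have hfin : (({n | ∃ k, ∃ x ∈ S k, n = f k x} : Set ℕ) ∩
        Set.Icc 1 (4 * 8 ^ k * D * ∏ j ∈ Finset.range k, r j)).Finite :=
      (Set.finite_Icc _ _).subset Set.inter_subset_right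
    rw [← card_image_of_injOn (s := (S k).filter (fun x => e k x k < D)) (f := f k)
      (hinj.mono (by intro x hx; exact (mem_filter.1 hx).1)), ← Set.ncard_coe_finset]
    apply Set.ncard_le_ncard _ hfin
    intro n hn
    rw [mem_coe, mem_image] at hn
    obtain ⟨x, hx, rfl⟩ := hn
    rw [mem_filter] at hx
    refine ⟨⟨k, x, hx.1, rfl⟩, ?_, ?_⟩
    · exact cd_pos hr k _
    · have h1 := cd_le hr (hrep k x hx.1).1 hx.2
      calc f k x ≤ 4 * D * wt r k := h1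
        _ = 4 * 8 ^ k * D * ∏ j ∈ Finset.range k, r j := by
          unfold wt; ring

end Pool.Agent.SC
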