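import Mathlib

set_option autoImplicit false

open Finset

namespace Pool.Agent.SC

namespace RepAux

/-- residue bookkeeping. -/
lemma shift_iff {r : ℕ} {n a i w : ℕ} {u : ℕ} (hu : u + n = r * w) (hi : i < r) :
    (a + u) % r = i ↔ a % r = (n + i) % r := by
  constructor
  · intro h
    have h1 : (n + i) % r = (n + (a + u)) % r := by rw [← h, Nat.add_mod_mod]
    have h2 : n + (a + u) = a + r * w := by omega
    rw [h1, h2, Nat.add_mul_mod_self_left]
  · intro h
    have h1 : (a + u) % r = ((n + i) % r + u) % r := by rw [← h, Nat.mod_add_mod]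
    have h2 : n + i + u = i + r * w := by omega
    rw [h1, Nat.mod_add_mod, h2, Nat.add_mul_mod_self_left, Nat.mod_eq_of_lt hi]

lemma shift_sum (r n : ℕ) (hr : 1 ≤ r) : (r - n % r) + n = r * (1 + n / r) := by
  have h1 := Nat.div_add_mod n r
  have h2 := Nat.mod_lt n hr
  rw [mul_add, mul_one]
  omega

lemma cnt {α : Type*} (S : Finset α) (f : α → ℕ) (r : ℕ) (hr : 1 ≤ r) (n D : ℕ) (hD : D ≤ r) :
    ∑ i ∈ range D, (S.filter (fun x => f x % r = (n + i) % r)).card =
      (S.filter (fun x => (f x + (r - n % r)) % r < D)).card := by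
  classical
  have h := card_eq_sum_card_fiberwise (s := S.filter (fun x => (f x + (r - n % r)) % r < D))
    (t := range D) (f := fun x => (f x + (r - n % r)) % r)
    (by
      intro x hx
      rw [mem_coe, mem_filter] at hx
      rw [mem_coe, mem_range]
      exact hx.2)
  rw [h]
  apply sum_congr rfl
  intro i hi
  rw [mem_range] at hi
  congr 1
  ext x
  rw [mem_filter, mem_filter, mem_filter]
  have key := shift_iff (a := f x) (shift_sum r n hr) (lt_of_lt_of_le hi hD)
  constructor
  · rintro ⟨h1, h2⟩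
    have h3 := key.2 h2
    exact ⟨⟨h1, by omega⟩, h3⟩
  · rintro ⟨⟨h1, _⟩, h3⟩
    exact ⟨h1, key.1 h3⟩

/-- The cycle lemma (gas station lemma). -/
lemma cycle {α : Type*} (S : Finset α) (f : α → ℕ) (r : ℕ) (hr : 1 ≤ r) :
    ∃ s : ℕ, ∀ D ≤ r, D * S.card ≤ r * (S.filter (fun x => (f x + s) % r < D)).card := by
  classical
  let c : ℕ → ℕ := fun i => (S.filter (fun x => f x % r = i % r)).card
  let P : ℕ → ℤ := fun n => (r : ℤ) * ((∑ i ∈ range n, c i : ℕ) : ℤ) - n * S.card
  have hfull : ∀ n, ∑ i ∈ range r, c (n + i) = S.card := by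
    intro n
    have h := cnt S f r hr n r le_rfl
    rw [show (∑ i ∈ range r, c (n + i)) = _ from h]
    congr 1
    exact filter_true_of_mem (fun x _ => Nat.mod_lt _ hr)
  have hadd : ∀ n D, (∑ i ∈ range (n + D), c i : ℕ) =
      (∑ i ∈ range n, c i) + ∑ i ∈ range D, c (n + i) := by
    intro n D
    exact sum_range_add _ _ _
  have hper : ∀ n, P (n + r) = P n := by
    intro n
    simp only [P]
    rw [hadd n r, hfull n]
    push_cast
    ring
  have hperm : ∀ q n, P (n + r * q) = P n := by
    intro q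
    induction q with
    | zero => intro n; simp
    | succ q ih =>
      intro n
      have : n + r * (q + 1) = (n + r * q) + r := by ring
      rw [this, hper, ih]
  obtain ⟨s, hs, hmin⟩ := exists_min_image (range r) P ⟨0, mem_range.2 (by omega)⟩
  have hmin' : ∀ n, P s ≤ P n := by
    intro n
    have h1 : n % r + r * (n / r) = n := Nat.mod_add_div n r
    have h2 := hperm (n / r) (n % r)
    rw [h1] at h2
    rw [h2]
    exact hmin _ (mem_range.2 (Nat.mod_lt _ hr))
  refine ⟨r - s % r, ?_⟩
  intro D hD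
  have h1 := hmin' (s + D)
  have h2 := cnt S f r hr s D hD
  have h3 := hadd s D
  have h4 : (∑ i ∈ range D, c (s + i)) =
      (S.filter (fun x => (f x + (r - s % r)) % r < D)).card := h2
  simp only [P] at h1
  rw [h3, h4] at h1
  push_cast at h1
  have h5 : ((D * S.card : ℕ) : ℤ) ≤
      ((r * (S.filter (fun x => (f x + (r - s % r)) % r < D)).card : ℕ) : ℤ) := by
    push_cast
    nlinarith
  exact_mod_cast h5

end RepAux

open RepAux

theorem rep (W : Type*) [Field W] [IsAlgClosed W] (m : ℕ → ℕ) (hm0 : ∀ k, 0 < m k)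
    (hdvd : ∀ k, m k ∣ m (k + 1)) (hch : ∀ k, (m k : W) ≠ 0) (r : ℕ → ℕ) (hr0 : r 0 = m 0)
    (hr : ∀ k, m (k + 1) = m k * r (k + 1)) :
    ∃ t : ℕ → W, ∀ k, ∀ S : Finset W, (∀ x ∈ S, x ^ m k = 1) →
      ∃ g : W, g ≠ 0 ∧ ∃ e : W → ℕ → ℕ,
        (∀ x ∈ S, (∀ j, e (g * x) j < r j) ∧ (∀ j, k < j → e (g * x) j = 0) ∧
          g * x = ∏ j ∈ Finset.range (k + 1), t j ^ e (g * x) j) ∧
        ∀ D ≤ r k, D * S.card ≤ r k * (S.filter (fun x => e (g * x) k < D)).card := by
  classical
  have hrpos : ∀ j, 0 < r j := by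
    intro j
    cases j with
    | zero => rw [hr0]; exact hm0 0
    | succ j =>
      have h1 := hm0 (j + 1)
      rw [hr j] at h1
      exact Nat.pos_of_mul_pos_left h1
  have hprim : ∀ k, ∃ ζ : W, IsPrimitiveRoot ζ (m k) := by
    intro k
    have : NeZero (m k : W) := ⟨hch k⟩
    exact HasEnoughRootsOfUnity.exists_primitiveRoot W (m k)
  choose t ht using hprim
  have htpow : ∀ k y, y ^ m k = 1 → ∃ a, a < m k ∧ t k ^ a = y := by
    intro k y hy
    have : NeZero (m k) := ⟨(hm0 k).ne'⟩
    exact (ht k).eq_pow_of_pow_eq_one hy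
  -- representation with prescribed top digit
  have hone : ∀ k a, ∃ e : ℕ → ℕ, (∀ j, e j < r j) ∧ (∀ j, k < j → e j = 0) ∧
      t k ^ a = ∏ j ∈ range (k + 1), t j ^ e j ∧ e k = a % r k := by
    intro k
    induction k with
    | zero =>
      intro a
      refine ⟨fun j => if j = 0 then a % r 0 else 0, ?_, ?_, ?_, ?_⟩
      · intro j
        by_cases hj : j = 0
        · subst hj; simp only [if_true]; exact Nat.mod_lt _ (hrpos 0)
        · simp only [if_neg hj]; exact hrpos j
      · intro j hj
        simp only [if_neg (Nat.pos_iff_ne_zero.1 hj)]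
      · rw [prod_range_one]
        simp only [if_true]
        rw [hr0]
        conv_lhs => rw [← Nat.div_add_mod a (m 0)]
        rw [pow_add, pow_mul, (ht 0).pow_eq_one, one_pow, one_mul]
      · simp
    | succ k ih =>
      intro a
      have h1 : (t (k + 1) ^ (r (k + 1) * (a / r (k + 1)))) ^ m k = 1 := by
        rw [← pow_mul]
        have : r (k + 1) * (a / r (k + 1)) * m k = m (k + 1) * (a / r (k + 1)) := by
          rw [hr k]; ring
        rw [this, pow_mul, (ht (k + 1)).pow_eq_one, one_pow]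
      obtain ⟨a', _, ha'⟩ := htpow k _ h1
      obtain ⟨e', he1, he2, he3, _⟩ := ih a'
      refine ⟨fun j => if j = k + 1 then a % r (k + 1) else e' j, ?_, ?_, ?_, ?_⟩
      · intro j
        by_cases hj : j = k + 1
        · subst hj; simp only [if_true]; exact Nat.mod_lt _ (hrpos _)
        · simp only [if_neg hj]; exact he1 j
      · intro j hj
        have h2 : j ≠ k + 1 := by omega
        simp only [if_neg h2]
        exact he2 j (by omega)
      · rw [prod_range_succ]
        have h2 : ∏ j ∈ range (k + 1), t j ^ (if j = k + 1 then a % r (k + 1) else e' j) =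
            ∏ j ∈ range (k + 1), t j ^ e' j := by
          apply prod_congr rfl
          intro j hj
          rw [mem_range] at hj
          rw [if_neg (by omega)]
        rw [h2, ← he3, ha']
        simp only [if_true]
        rw [← pow_add]
        congr 1
        exact (Nat.div_add_mod a (r (k + 1))).symm
      · simp
  have hrdvd : ∀ k, r k ∣ m k := by
    intro k
    cases k with
    | zero => rw [hr0]
    | succ k => rw [hr k]; exact Dvd.intro_left _ rfl
  refine ⟨t, ?_⟩
  intro k S hS
  -- index function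
  have hidx : ∀ y : W, ∃ a : ℕ, y ^ m k = 1 → (t k ^ a = y) := by
    intro y
    by_cases hy : y ^ m k = 1
    · obtain ⟨a, _, ha⟩ := htpow k y hy
      exact ⟨a, fun _ => ha⟩
    · exact ⟨0, fun h => absurd h hy⟩
  choose idx hidx using hidx
  obtain ⟨s, hs⟩ := cycle S idx (r k) (hrpos k)
  have hdig := fun y : W => hone k (idx y)
  choose e he1 he2 he3 he4 using hdig
  have ht0 : t k ≠ 0 := (ht k).ne_zero (hm0 k).ne'
  have hg : ∀ x ∈ S, (t k ^ s * x) ^ m k = 1 := by
    intro x hx
    rw [mul_pow, hS x hx, mul_one, ← pow_mul, mul_comm, pow_mul, (ht k).pow_eq_one, one_pow]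
  refine ⟨t k ^ s, pow_ne_zero _ ht0, e, ?_, ?_⟩
  · intro x hx
    refine ⟨he1 _, he2 _, ?_⟩
    rw [← he3, hidx _ (hg x hx)]
  · intro D hD
    have h1 : S.filter (fun x => e (t k ^ s * x) k < D) =
        S.filter (fun x => (idx x + s) % r k < D) := by
      apply filter_congr
      intro x hx
      have h2 : t k ^ idx (t k ^ s * x) = t k ^ (idx x + s) := by
        rw [hidx _ (hg x hx), pow_add, hidx x (hS x hx), mul_comm]
      have h3 : idx (t k ^ s * x) ≡ idx x + s [MOD m k] := by
        have hred : ∀ n : ℕ, t k ^ n = t k ^ (n % m k) := by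
          intro n
          conv_lhs => rw [← Nat.div_add_mod n (m k)]
          rw [pow_add, pow_mul, (ht k).pow_eq_one, one_pow, one_mul]
        rw [hred (idx (t k ^ s * x)), hred (idx x + s)] at h2
        exact (ht k).pow_inj (Nat.mod_lt _ (hm0 k)) (Nat.mod_lt _ (hm0 k)) h2
      have h4 : idx (t k ^ s * x) % r k = (idx x + s) % r k := h3.of_dvd (hrdvd k)
      rw [he4, h4]
    rw [h1]
    exact hs D hD

end Pool.Agent.SC
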