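import Pool.Agent.SC.Chain
import Pool.Agent.SC.Embed
import Pool.Agent.SC.Deletion
import Pool.Agent.SC.Rep

set_option autoImplicit false

open Finset

namespace Pool.Agent.SC

lemma M_eq (q : ℕ) : M q = (q ^ 3 - 1) * (q + 1) := rfl

/-- order quotients. -/
def rr (p k : ℕ) : ℕ :=
  if k = 0 then mm p 0
  else if k % 2 = 0 then qq p (k / 2) + 1
  else (qq p (k / 2)) ^ 2 - qq p (k / 2) + 1

lemma qq_pos {p : ℕ} (hp : 2 ≤ p) (i : ℕ) : 2 ≤ qq p i := by
  unfold qq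
  exact hp.trans (Nat.le_self_pow (by positivity) p)

lemma pow6 (q : ℕ) (hq : 1 ≤ q) : q ^ 6 - 1 = ((q ^ 3 - 1) * (q + 1)) * (q ^ 2 - q + 1) := by
  obtain ⟨a, ha⟩ : ∃ a, q ^ 3 = a + 1 := ⟨q ^ 3 - 1, by
    have : 1 ≤ q ^ 3 := Nat.one_le_pow _ _ hq
    omega⟩
  obtain ⟨b, hb⟩ : ∃ b, q ^ 2 = b + q := ⟨q ^ 2 - q, by
    have : q ≤ q ^ 2 := Nat.le_self_pow (by norm_num) q
    omega⟩
  have h1 : (q + 1) * (b + 1) = q ^ 3 + 1 := by
    have : (q + 1) * (b + 1) + (q + 1) * q = (q ^ 3 + 1) + (q + 1) * q := by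
      calc (q + 1) * (b + 1) + (q + 1) * q = (q + 1) * (b + q) + (q + 1) := by ring
        _ = (q + 1) * q ^ 2 + (q + 1) := by rw [← hb]
        _ = _ := by ring
    omega
  have h2 : q ^ 6 = (a + 1) * (a + 1) := by
    calc q ^ 6 = q ^ 3 * q ^ 3 := by ring
      _ = _ := by rw [ha]
  have e1 : q ^ 3 - 1 = a := by omega
  have e2 : q ^ 2 - q = b := by omega
  rw [e1, e2, h2, mul_assoc, h1, ha]
  have : (a + 1) * (a + 1) = a * (a + 1 + 1) + 1 := by ring
  omega

lemma mm_succ {p : ℕ} (hp : 2 ≤ p) (k : ℕ) : mm p (k + 1) = mm p k * rr p (k + 1) := by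
  rcases Nat.even_or_odd' k with ⟨i, rfl | rfl⟩
  · rw [mm_odd, mm_even, M_eq]
    unfold rr
    rw [if_neg (by omega), if_neg (by omega), show (2 * i + 1) / 2 = i by omega]
    exact pow6 _ ((Nat.le_succ 1).trans (qq_pos hp i))
  · rw [show 2 * i + 1 + 1 = 2 * (i + 1) by ring, mm_odd, mm_even, M_eq]
    unfold rr
    rw [if_neg (by omega), if_pos (by omega), show 2 * (i + 1) / 2 = i + 1 by omega, qq_succ]
    congr 1
    rw [← pow_mul]

lemma prod_rr {p : ℕ} (hp : 2 ≤ p) (k : ℕ) : ∏ j ∈ range (k + 1), rr p j = mm p k := by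
  induction k with
  | zero => simp [rr]
  | succ k ih => rw [prod_range_succ, ih, mm_succ hp]

lemma mm_pos {p : ℕ} (hp : 2 ≤ p) (k : ℕ) : 0 < mm p k := by
  rcases Nat.even_or_odd' k with ⟨i, rfl | rfl⟩
  · rw [mm_even, M_eq]
    have h1 := qq_pos hp i
    have h2 : 2 ^ 3 ≤ (qq p i) ^ 3 := Nat.pow_le_pow_left h1 3
    exact Nat.mul_pos (by omega) (by omega)
  · rw [mm_odd]
    have h1 := qq_pos hp i
    have h2 : 2 ^ 6 ≤ (qq p i) ^ 6 := Nat.pow_le_pow_left h1 6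
    omega

lemma rr_pos {p : ℕ} (hp : 2 ≤ p) (k : ℕ) : 1 ≤ rr p k := by
  unfold rr
  split_ifs
  · exact mm_pos hp 0
  · omega
  · omega

lemma mm_cast_ne (W : Type*) [Field W] (p : ℕ) [Fact p.Prime] [CharP W p] (k : ℕ) :
    (mm p k : W) ≠ 0 := by
  have hp : p.Prime := Fact.out
  have h0 : ∀ i, ((qq p i : ℕ) : W) = 0 := by
    intro i
    unfold qq
    push_cast
    rw [CharP.cast_eq_zero W p, zero_pow (by positivity)]
  rcases Nat.even_or_odd' k with ⟨i, rfl | rfl⟩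
  · rw [mm_even, M_eq]
    have h1 := qq_pos hp.two_le i
    have h2 : 1 ≤ (qq p i) ^ 3 := Nat.one_le_pow _ _ (by omega)
    push_cast [Nat.cast_sub h2]
    rw [h0]
    norm_num
  · rw [mm_odd]
    have h1 := qq_pos hp.two_le i
    have h2 : 1 ≤ (qq p i) ^ 6 := Nat.one_le_pow _ _ (by omega)
    push_cast [Nat.cast_sub h2]
    rw [h0]
    norm_num

/-- level sizes -/
def ss (p k : ℕ) : ℕ := if k % 2 = 0 then (qq p (k / 2)) ^ 2 / 16 else (qq p (k / 2)) ^ 3 / 16

lemma ss_even (p i : ℕ) : ss p (2 * i) = (qq p i) ^ 2 / 16 := by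
  unfold ss
  rw [if_pos (by omega), show 2 * i / 2 = i by omega]

lemma ss_odd (p i : ℕ) : ss p (2 * i + 1) = (qq p i) ^ 3 / 16 := by
  unfold ss
  rw [if_neg (by omega), show (2 * i + 1) / 2 = i by omega]

lemma ss_grow {p : ℕ} (hp : 100 ≤ p) (k : ℕ) : 4 * ss p k ≤ ss p (k + 1) := by
  have hq : ∀ i, 100 ≤ qq p i := by
    intro i
    unfold qq
    exact hp.trans (Nat.le_self_pow (by positivity) p)
  rcases Nat.even_or_odd' k with ⟨i, rfl | rfl⟩
  · rw [ss_even, ss_odd]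
    have h1 := hq i
    have h2 : 100 * (qq p i) ^ 2 ≤ (qq p i) ^ 3 := by
      calc 100 * (qq p i) ^ 2 ≤ qq p i * (qq p i) ^ 2 := Nat.mul_le_mul_right _ h1
        _ = _ := by ring
    omega
  · rw [show 2 * i + 1 + 1 = 2 * (i + 1) by ring, ss_even, ss_odd, qq_succ]
    have h1 := hq i
    have h2 : 100 * (qq p i) ^ 3 ≤ ((qq p i) ^ 2) ^ 2 := by
      calc 100 * (qq p i) ^ 3 ≤ qq p i * (qq p i) ^ 3 := Nat.mul_le_mul_right _ h1
        _ = _ := by ring
    omega

lemma ss_far {p : ℕ} (hp : 100 ≤ p) (k : ℕ) : 4 * (ss p k) ^ 2 ≤ ss p (k + 2) := by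
  have hq : ∀ i, 100 ≤ qq p i := by
    intro i
    unfold qq
    exact hp.trans (Nat.le_self_pow (by positivity) p)
  have key : ∀ a : ℕ, 100 ≤ a → 4 * (a / 16) ^ 2 ≤ a ^ 2 / 16 := by
    intro a ha
    have h1 : 16 * (a / 16) ≤ a := Nat.mul_div_le _ _
    have h2 : (16 * (a / 16)) ^ 2 ≤ a ^ 2 := Nat.pow_le_pow_left h1 2
    rw [mul_pow] at h2
    omega
  rcases Nat.even_or_odd' k with ⟨i, rfl | rfl⟩
  · rw [show 2 * i + 2 = 2 * (i + 1) by ring, ss_even, ss_even, qq_succ]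
    exact key _ ((hq i).trans (Nat.le_self_pow (by norm_num) _))
  · rw [show 2 * i + 1 + 2 = 2 * (i + 1) + 1 by ring, ss_odd, ss_odd, qq_succ]
    have := key ((qq p i) ^ 3) ((hq i).trans (Nat.le_self_pow (by norm_num) _))
    calc _ ≤ _ := this
      _ = _ := by congr 1; ring

lemma ss_sum {p : ℕ} (hp : 100 ≤ p) (k : ℕ) :
    2 * ∑ i ∈ range (k - 1), (ss p i) ^ 2 ≤ ss p k := by
  have h1 : ∀ n, ∑ i ∈ range (n + 1), (ss p i) ^ 2 ≤ 2 * (ss p n) ^ 2 := by
    intro n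
    induction n with
    | zero => simp; omega
    | succ n ih =>
      rw [sum_range_succ]
      have h2 : (4 * ss p n) ^ 2 ≤ (ss p (n + 1)) ^ 2 := Nat.pow_le_pow_left (ss_grow hp n) 2
      rw [mul_pow] at h2
      omega
  rcases Nat.lt_or_ge k 2 with h | h
  · have : k - 1 = 0 := by omega
    rw [this]; simp
  · obtain ⟨n, rfl⟩ : ∃ n, k = n + 2 := ⟨k - 2, by omega⟩
    rw [show n + 2 - 1 = n + 1 by omega]
    have := h1 n
    have := ss_far hp n
    omega

/-- the previous order. -/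
def mprev (p k : ℕ) : ℕ := ∏ j ∈ range k, rr p j

/-- Main combinatorial output. -/
theorem exists_set (p : ℕ) [Fact p.Prime] (hp : 100 ≤ p) : ∃ A : Set ℕ, IsSidon A ∧
    ∀ k D, 1 ≤ D → D ≤ rr p k →
      D * ss p k ≤ 2 * (rr p k * (A ∩ Set.Icc 1 (4 * 8 ^ k * D * mprev p k)).ncard) := by
  classical
  let W := AlgebraicClosure (ZMod p)
  have hp2 : 2 ≤ p := by omega
  have : CharP W p := charP_of_injective_algebraMap (algebraMap (ZMod p) W).injective p
  obtain ⟨S, hord, hSid, hadj, hc0, hc1⟩ := chain W p hp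
  have hcS : ∀ k, (S k).card = ss p k := by
    intro k
    rcases Nat.even_or_odd' k with ⟨i, rfl | rfl⟩
    · rw [hc0, ss_even]
    · rw [hc1, ss_odd]
  have h0 : ∀ k, (0 : W) ∉ S k := by
    intro k h
    have := hord k 0 h
    rw [zero_pow (mm_pos hp2 k).ne'] at this
    exact zero_ne_one this
  obtain ⟨S', hS'sub, hS'card, hS'X⟩ := deletion S h0 hSid hadj (by
    intro k
    simp only [hcS]
    exact ss_sum hp k)
  obtain ⟨t, ht⟩ := rep W (mm p) (mm_pos hp2) (fun k => ⟨_, mm_succ hp2 k⟩) (mm_cast_ne W p) (rr p)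
    (by simp [rr]) (mm_succ hp2)
  have hg := fun k => ht k (S' k) (fun x hx => hord k x (hS'sub k hx))
  choose g hg0 e he1 he2 using hg
  have hinj : ∀ k, Function.Injective (fun x : W => g k * x) := fun k a b h =>
    mul_left_cancel₀ (hg0 k) h
  obtain ⟨A, hA, hcount⟩ := embed t (rr p) (rr_pos hp2) (fun k => (S' k).image (fun x => g k * x)) e
    (by
      intro k y hy
      obtain ⟨x, hx, rfl⟩ := mem_image.1 hy
      exact he1 k x hx)
    (by
      intro k a ha b hb c hc d hd h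
      obtain ⟨a', ha', rfl⟩ := mem_image.1 ha
      obtain ⟨b', hb', rfl⟩ := mem_image.1 hb
      obtain ⟨c', hc', rfl⟩ := mem_image.1 hc
      obtain ⟨d', hd', rfl⟩ := mem_image.1 hd
      have h1 : a' * b' = c' * d' := by
        have h2 : (g k * g k) * (a' * b') = (g k * g k) * (c' * d') := by linear_combination h
        exact mul_left_cancel₀ (mul_ne_zero (hg0 k) (hg0 k)) h2
      rcases hSid k a' (hS'sub k ha') b' (hS'sub k hb') c' (hS'sub k hc') d' (hS'sub k hd') h1 with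
        ⟨e1, e2⟩ | ⟨e1, e2⟩
      · left; rw [e1, e2]; exact ⟨rfl, rfl⟩
      · right; rw [e1, e2]; exact ⟨rfl, rfl⟩)
    (by
      intro i k hik a ha b hb c hc d hd h
      obtain ⟨a', ha', rfl⟩ := mem_image.1 ha
      obtain ⟨b', hb', rfl⟩ := mem_image.1 hb
      obtain ⟨c', hc', rfl⟩ := mem_image.1 hc
      obtain ⟨d', hd', rfl⟩ := mem_image.1 hd
      have h1 : a' * c' = b' * d' := by
        have h2 : (g i * g k) * (a' * c') = (g i * g k) * (b' * d') := by linear_combination h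
        exact mul_left_cancel₀ (mul_ne_zero (hg0 i) (hg0 k)) h2
      obtain ⟨e1, e2⟩ := hS'X i k hik a' ha' b' hb' c' hc' d' hd' h1
      rw [e1, e2]; exact ⟨rfl, rfl⟩)
  refine ⟨A, hA, ?_⟩
  intro k D hD hDr
  have h1 := hcount k D hD
  have h2 := he2 k D hDr
  have h3 := hS'card k
  rw [hcS] at h3
  have h4 : ((S' k).filter (fun x => e k (g k * x) k < D)).card ≤
      (((S' k).image (fun x => g k * x)).filter (fun x => e k x k < D)).card := by
    rw [← card_image_of_injective _ (hinj k)]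
    apply card_le_card
    intro y hy
    obtain ⟨x, hx, rfl⟩ := mem_image.1 hy
    rw [mem_filter] at hx ⊢
    exact ⟨mem_image_of_mem _ hx.1, hx.2⟩
  calc D * ss p k ≤ D * (2 * (S' k).card) := Nat.mul_le_mul_left _ h3
    _ = 2 * (D * (S' k).card) := by ring
    _ ≤ 2 * (rr p k * ((S' k).filter (fun x => e k (g k * x) k < D)).card) :=
        Nat.mul_le_mul_left _ h2
    _ ≤ 2 * (rr p k * (A ∩ Set.Icc 1 (4 * 8 ^ k * D * mprev p k)).ncard) :=
        Nat.mul_le_mul_left _ (Nat.mul_le_mul_left _ (h4.trans h1))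

end Pool.Agent.SC
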