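import Pool.Agent.SC.Sets

set_option autoImplicit false

open Polynomial Finset

namespace Pool.Agent.SC

/-- the sizes: `q i = p ^ (2 ^ i)`. -/
def qq (p i : ℕ) : ℕ := p ^ (2 ^ i)

lemma qq_succ (p i : ℕ) : qq p (i + 1) = (qq p i) ^ 2 := by
  unfold qq; rw [pow_succ, pow_mul]

/-- the orders of the groups. -/
def mm (p k : ℕ) : ℕ := if k % 2 = 0 then M (qq p (k / 2)) else (qq p (k / 2)) ^ 6 - 1

lemma mm_even (p i : ℕ) : mm p (2 * i) = M (qq p i) := by
  unfold mm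
  rw [if_pos (by omega), show 2 * i / 2 = i by omega]

lemma mm_odd (p i : ℕ) : mm p (2 * i + 1) = (qq p i) ^ 6 - 1 := by
  unfold mm
  rw [if_neg (by omega), show (2 * i + 1) / 2 = i by omega]

variable (W : Type*) [Field W] [IsAlgClosed W] [DecidableEq W] (p : ℕ) [Fact p.Prime] [CharP W p]

/-- The algebraic part: the chain of Sidon sets. -/
theorem chain (hp : 100 ≤ p) : ∃ S : ℕ → Finset W,
    (∀ k, ∀ x ∈ S k, x ^ mm p k = 1) ∧
    (∀ k, ∀ a ∈ S k, ∀ b ∈ S k, ∀ c ∈ S k, ∀ d ∈ S k, a * b = c * d →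
      (a = c ∧ b = d) ∨ (a = d ∧ b = c)) ∧
    (∀ k, ∀ a ∈ S k, ∀ b ∈ S k, ∀ c ∈ S (k + 1), ∀ d ∈ S (k + 1), a * c = b * d → a = b) ∧
    (∀ i, (S (2 * i)).card = (qq p i) ^ 2 / 16) ∧
    (∀ i, (S (2 * i + 1)).card = (qq p i) ^ 3 / 16) := by
  classical
  have hpp : p.Prime := Fact.out
  have hn : ∀ i : ℕ, (2 ^ i : ℕ) ≠ 0 := fun i => by positivity
  have hqge : ∀ i, 100 ≤ qq p i := by
    intro i
    unfold qq
    exact hp.trans (Nat.le_self_pow (hn i) p)
  have hFr : ∀ i, Fr W (qq p i) := fun i => fr_of_char W p _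
  choose θ ϑ hθ2 hθ1 hϑ3 hϑ1 using fun i : ℕ => exists_base W p (2 ^ i) (hn i)
  have hsplit := fun i : ℕ => split_pair W p (2 ^ i) (hn i) (θ := θ i) (θ' := θ (i + 1))
    (ϑ' := ϑ (i + 1)) (hθ2 i) (hθ1 i)
    (by have := hθ2 (i + 1); rw [pow_succ 2 i, pow_mul p] at this; exact this)
    (by have := hθ1 (i + 1); rw [pow_succ 2 i, pow_mul p] at this; exact this)
    (by have := hϑ3 (i + 1); rw [pow_succ 2 i, pow_mul p] at this; exact this)
    (by have := hϑ1 (i + 1); rw [pow_succ 2 i, pow_mul p] at this; exact this)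
  choose Z X' hZ hX' cZ cX' hZX using hsplit
  obtain ⟨X0, hX0, cX0⟩ := exists_params W p (2 ^ 0) (hn 0) (θ 0)
  let X : ℕ → Finset W := fun i => match i with
    | 0 => X0
    | j + 1 => X' j
  have hXp : ∀ i, ∀ α ∈ X i, Fix ((qq p i) ^ 2) α ∧ vc (qq p i) (θ i) α ≠ 0 := by
    intro i
    cases i with
    | zero => exact hX0
    | succ j =>
      intro α hα
      have := hX' j α hα
      rw [qq_succ]
      exact this
  have cX : ∀ i, (qq p i) ^ 2 ≤ 2 * (X i).card + (qq p i + 1) := by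
    intro i
    cases i with
    | zero =>
      have : (qq p 0) ^ 2 ≤ X0.card + (qq p 0 + 1) := cX0
      show (qq p 0) ^ 2 ≤ 2 * X0.card + (qq p 0 + 1)
      omega
    | succ j =>
      have := cX' j
      rw [qq_succ]
      exact this
  -- even levels
  have hE : ∀ i, ∃ T : Finset W, T ⊆ (X i).image (xf (qq p i) (θ i) (ϑ i)) ∧
      T.card = (qq p i) ^ 2 / 16 := by
    intro i
    apply exists_subset_card_eq
    have h1 := xf_image_card (hFr i) (hθ2 i) (hθ1 i) (hϑ3 i) (hϑ1 i) (X i) (hXp i)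
    have h2 := cX i
    have h3 := hqge i
    have h4 : 100 * qq p i ≤ (qq p i) ^ 2 := by nlinarith
    change (qq p i) ^ 2 / 16 ≤ ((X i).image (xf (qq p i) (θ i) (ϑ i))).card
    omega
  choose T hT cT using hE
  -- the bad points of the line
  have hrep : ∀ i, ∀ x : W, ∃ α : W, x ∈ T i → (α ∈ X i ∧ xf (qq p i) (θ i) (ϑ i) α = x) := by
    intro i x
    by_cases hx : x ∈ T i
    · obtain ⟨α, h1, h2⟩ := mem_image.1 (hT i hx)
      exact ⟨α, fun _ => ⟨h1, h2⟩⟩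
    · exact ⟨0, fun h => absurd h hx⟩
  choose al hal using hrep
  have hF : ∀ i, ∃ F : Finset W, (∀ x, x ∈ F ↔ Fix (qq p i) x) ∧ F.card = qq p i :=
    fun i => exists_fix W p (2 ^ i) (hn i)
  choose F hFm hFc using hF
  let bad : ℕ → Finset W := fun i =>
    (T i).biUnion (fun x => (F i).image (fun h => Zf (qq p i) (θ i) (ϑ i) (al i x) h))
  have hbad : ∀ i, (bad i).card ≤ ((qq p i) ^ 2 / 16) * qq p i := by
    intro i
    calc (bad i).card ≤ (T i).card * qq p i := by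
          apply card_biUnion_le_card_mul
          intro x _
          exact card_image_le.trans (hFc i).le
      _ = _ := by rw [cT]
  have hO : ∀ i, ∃ Y : Finset W, Y ⊆ Z i \ bad i ∧ Y.card = (qq p i) ^ 3 / 16 := by
    intro i
    apply exists_subset_card_eq
    have h1 : (Z i).card - (bad i).card ≤ (Z i \ bad i).card := le_card_sdiff _ _
    have h2 : (qq p i) ^ 3 ≤ 4 * (Z i).card := cZ i
    have h3 := hbad i
    have h4 : 16 * (((qq p i) ^ 2 / 16) * qq p i) ≤ (qq p i) ^ 3 := by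
      have : 16 * ((qq p i) ^ 2 / 16) ≤ (qq p i) ^ 2 := Nat.mul_div_le _ _
      calc 16 * (((qq p i) ^ 2 / 16) * qq p i) = (16 * ((qq p i) ^ 2 / 16)) * qq p i := by ring
        _ ≤ (qq p i) ^ 2 * qq p i := Nat.mul_le_mul_right _ this
        _ = _ := by ring
    omega
  choose Y hY cY using hO
  -- basic facts about the line
  have hθ3 : ∀ i, ¬ Fix ((qq p i) ^ 3) (θ i) := fun i h3 => hθ1 i ((hθ2 i).of_two_three h3)
  have hYZ : ∀ i, ∀ z ∈ Y i, z ∈ Z i := fun i z hz => (mem_sdiff.1 (hY i hz)).1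
  have hYf : ∀ i, ∀ z ∈ Y i, Fix ((qq p i) ^ 3) z := fun i z hz => hZ i z (hYZ i z hz)
  have hYne : ∀ i, ∀ z ∈ Y i, θ i + z ≠ 0 := by
    intro i z hz h0
    apply hθ3 i
    have : θ i = 0 - z := by linear_combination h0
    rw [this]
    exact Fix.sub ((hFr i).pow 3) (by
      unfold Fix; rw [zero_pow (pow_pos (hFr i).1 3).ne']) (hYf i z hz)
  have hTx : ∀ i, ∀ x ∈ T i, ∃ α, Fix ((qq p i) ^ 2) α ∧ vc (qq p i) (θ i) α ≠ 0 ∧
      xf (qq p i) (θ i) (ϑ i) α = x ∧ α ∈ X i ∧ α = al i x := by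
    intro i x hx
    obtain ⟨h1, h2⟩ := hal i x hx
    exact ⟨al i x, (hXp i _ h1).1, (hXp i _ h1).2, h2, h1, rfl⟩
  have hϑ2 : ∀ i, ¬ Fix ((qq p i) ^ 2) (ϑ i) := fun i h2 => hϑ1 i (h2.of_two_three (hϑ3 i))
  have hTne : ∀ i, ∀ x ∈ T i, x ≠ 0 := by
    intro i x hx
    obtain ⟨α, h1, h2, h3, -, -⟩ := hTx i x hx
    rw [← h3]
    exact div_ne_zero (R_ne h1 (hϑ2 i)) (R_ne_of_vc h1 h2)
  -- the sets
  let S : ℕ → Finset W := fun k =>
    if k % 2 = 0 then T (k / 2) else (Y (k / 2)).image (fun z => θ (k / 2) + z)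
  have hS0 : ∀ i, S (2 * i) = T i := by
    intro i
    show (if (2 * i) % 2 = 0 then T (2 * i / 2) else _) = _
    rw [if_pos (by omega), show 2 * i / 2 = i by omega]
  have hS1 : ∀ i, S (2 * i + 1) = (Y i).image (fun z => θ i + z) := by
    intro i
    show (if (2 * i + 1) % 2 = 0 then _ else
      (Y ((2 * i + 1) / 2)).image (fun z => θ ((2 * i + 1) / 2) + z)) = _
    rw [if_neg (by omega), show (2 * i + 1) / 2 = i by omega]
  refine ⟨S, ?_, ?_, ?_, ?_, ?_⟩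
  · -- orders
    intro k x hx
    rcases Nat.even_or_odd' k with ⟨i, rfl | rfl⟩
    · rw [hS0] at hx
      rw [mm_even]
      obtain ⟨α, h1, h2, h3, -, -⟩ := hTx i x hx
      rw [← h3]
      unfold xf
      rw [div_pow]
      rw [pow_M_K (hFr i).1 (R_fix3 (hFr i) (hϑ3 i) h1) (R_ne h1 (hϑ2 i)),
        pow_M_E (hFr i).1 (R_fix ((hFr i).pow 2) h1 (hθ2 i)) (R_ne_of_vc h1 h2), div_one]
    · rw [hS1] at hx
      rw [mm_odd]
      obtain ⟨z, hz, rfl⟩ := mem_image.1 hx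
      have h6 : Fix ((qq p i) ^ 6) (θ i + z) := by
        have e1 : Fix (((qq p i) ^ 2) ^ 3) (θ i) := (hθ2 i).pow 3
        have e2 : Fix (((qq p i) ^ 3) ^ 2) z := (hYf i z hz).pow 2
        rw [← pow_mul] at e1 e2
        exact Fix.add ((hFr i).pow 6) e1 e2
      exact pow_sub_one_of_fix (pow_pos (hFr i).1 6) h6 (hYne i z hz)
  · -- Sidon
    intro k a ha b hb c hc d hd he
    rcases Nat.even_or_odd' k with ⟨i, rfl | rfl⟩
    · rw [hS0] at ha hb hc hd
      obtain ⟨α, a1, a2, a3, -, -⟩ := hTx i a ha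
      obtain ⟨β, b1, b2, b3, -, -⟩ := hTx i b hb
      obtain ⟨γ, c1, c2, c3, -, -⟩ := hTx i c hc
      obtain ⟨δ, d1, d2, d3, -, -⟩ := hTx i d hd
      rw [← a3, ← b3, ← c3, ← d3] at he ⊢
      exact xf_sidon (hFr i) (hθ2 i) (hθ1 i) (hϑ3 i) (hϑ1 i) a1 b1 c1 d1 a2 b2 c2 d2 he
    · rw [hS1] at ha hb hc hd
      obtain ⟨z1, h1, rfl⟩ := mem_image.1 ha
      obtain ⟨z2, h2, rfl⟩ := mem_image.1 hb
      obtain ⟨z3, h3, rfl⟩ := mem_image.1 hc
      obtain ⟨z4, h4, rfl⟩ := mem_image.1 hd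
      rcases sidonL ((hFr i).pow 3) (hθ3 i) (hYf i _ h1) (hYf i _ h2) (hYf i _ h3) (hYf i _ h4) he
        with ⟨e1, e2⟩ | ⟨e1, e2⟩
      · left; rw [e1, e2]; exact ⟨rfl, rfl⟩
      · right; rw [e1, e2]; exact ⟨rfl, rfl⟩
  · -- adjacency
    intro k a ha b hb c hc d hd he
    rcases Nat.even_or_odd' k with ⟨i, rfl | rfl⟩
    · rw [hS0] at ha hb
      rw [hS1] at hc hd
      by_contra hab
      obtain ⟨α, a1, a2, a3, -, a5⟩ := hTx i a ha
      obtain ⟨β, b1, b2, b3, -, -⟩ := hTx i b hb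
      obtain ⟨z, hz, rfl⟩ := mem_image.1 hc
      obtain ⟨z', hz', rfl⟩ := mem_image.1 hd
      have hzz : z ≠ z' := by
        rintro rfl
        exact hab (mul_right_cancel₀ (hYne i z hz) he)
      have nα := R_ne_of_vc a1 a2
      have nβ := R_ne_of_vc b1 b2
      obtain ⟨h₀, hh1, hh2⟩ := relP (hFr i) (θ := θ i) (ϑ := ϑ i) (α := α) (β := β) (z := z)
        (z' := z') (hθ2 i) (hθ1 i) (hϑ3 i) (hϑ1 i) a1 b1 (hYf i z hz) (hYf i z' hz') nα a2 hzz (by
          rw [← a3, ← b3] at he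
          unfold xf at he
          rw [div_mul_eq_mul_div, div_mul_eq_mul_div, div_eq_div_iff nα nβ] at he
          linear_combination -he)
      have hzb : z ∈ bad i := by
        rw [mem_biUnion]
        refine ⟨a, ha, mem_image.2 ⟨h₀, (hFm i h₀).2 hh1, ?_⟩⟩
        rw [← a5, hh2]
      exact (mem_sdiff.1 (hY i hz)).2 hzb
    · rw [hS1] at ha hb
      rw [show 2 * i + 1 + 1 = 2 * (i + 1) by ring, hS0] at hc hd
      obtain ⟨z, hz, rfl⟩ := mem_image.1 ha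
      obtain ⟨z', hz', rfl⟩ := mem_image.1 hb
      obtain ⟨γ, -, -, c3, c4, -⟩ := hTx (i + 1) c hc
      obtain ⟨δ, -, -, d3, d4, -⟩ := hTx (i + 1) d hd
      by_contra hab
      have hzz : z ≠ z' := by
        rintro rfl
        exact hab rfl
      rw [← c3, ← d3, qq_succ] at he
      exact hZX i z (hYZ i z hz) z' (hYZ i z' hz') δ d4 γ c4 hzz he
  · intro i; rw [hS0]; exact cT i
  · intro i
    rw [hS1, card_image_of_injective _ (fun a b h => add_left_cancel h)]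
    exact cY i

end Pool.Agent.SC
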