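import Pool.Agent.SC.Alg

set_option autoImplicit false

open Polynomial Finset

namespace Pool.Agent.SC

/-- The fixed sets in an algebraically closed field of characteristic `p`. -/
lemma exists_fix (W : Type*) [Field W] [IsAlgClosed W] (p : ℕ) [Fact p.Prime] [CharP W p] (k : ℕ)
    (hk : k ≠ 0) : ∃ S : Finset W, (∀ x, x ∈ S ↔ Fix (p ^ k) x) ∧ S.card = p ^ k := by
  classical
  have hp : p.Prime := Fact.out
  have h1 : 1 < p ^ k := Nat.one_lt_pow hk hp.one_lt
  let f : W[X] := X ^ (p ^ k) - X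
  have hf0 : f ≠ 0 := FiniteField.X_pow_card_sub_X_ne_zero W h1
  refine ⟨f.roots.toFinset, ?_, ?_⟩
  · intro x
    rw [Multiset.mem_toFinset, mem_roots hf0, IsRoot.def]
    simp only [f, eval_sub, eval_pow, eval_X, Fix]
    exact sub_eq_zero
  · have hsep : f.Separable := galois_poly_separable p _ (dvd_pow_self p hk)
    rw [Multiset.toFinset_card_of_nodup (nodup_roots hsep)]
    have hs : f.Splits := IsAlgClosed.splits f
    rw [← hs.natDegree_eq_card_roots]
    exact FiniteField.X_pow_card_sub_X_natDegree_eq W h1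

lemma fr_of_char (W : Type*) [Field W] (p : ℕ) [Fact p.Prime] [CharP W p] (k : ℕ) :
    Fr W (p ^ k) := ⟨pow_pos (Fact.out : p.Prime).pos k, fun x y => add_pow_char_pow x y p k⟩

/-- splitting lemma. -/
lemma split {α β V : Type*} [DecidableEq α] [DecidableEq β] [DecidableEq V] (Z : Finset α)
    (X : Finset β) (tz : α → V) (tx : β → V) (c : ℕ)
    (hc : ∀ v, (Z.filter (fun z => tz z = v)).card ≤ c) (hZ : 2 * c ≤ Z.card) :
    ∃ Z' X', Z' ⊆ Z ∧ X' ⊆ X ∧ Z.card ≤ 4 * Z'.card ∧ X.card ≤ 2 * X'.card ∧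
      ∀ z ∈ Z', ∀ x ∈ X', tz z ≠ tx x := by
  classical
  let n : Finset V → ℕ := fun B => (Z.filter (fun z => tz z ∈ B)).card
  let m : Finset V → ℕ := fun B => (X.filter (fun x => tx x ∈ B)).card
  have hex : ∃ k, ∃ B : Finset V, B.card = k ∧ Z.card ≤ 4 * n B := by
    refine ⟨_, Z.image tz, rfl, ?_⟩
    have : Z.filter (fun z => tz z ∈ Z.image tz) = Z := by
      apply filter_true_of_mem
      intro z hz
      exact mem_image_of_mem _ hz
    show Z.card ≤ 4 * (Z.filter (fun z => tz z ∈ Z.image tz)).card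
    rw [this]; omega
  obtain ⟨B, hBk, hB⟩ := Nat.find_spec hex
  have hmin := fun k (hk : k < Nat.find hex) => Nat.find_min hex hk
  have hupper : 4 * n B ≤ Z.card + 4 * c := by
    rcases B.eq_empty_or_nonempty with h0 | ⟨v, hv⟩
    · have : n B = 0 := by
        show (Z.filter (fun z => tz z ∈ B)).card = 0
        rw [h0]; simp
      rw [this]; omega
    · have h1 : (B.erase v).card < Nat.find hex := by
        rw [← hBk]; exact card_erase_lt_of_mem hv
      have h2 := hmin _ h1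
      push Not at h2
      have h3 := h2 (B.erase v) rfl
      have h4 : n B ≤ n (B.erase v) + (Z.filter (fun z => tz z = v)).card := by
        show (Z.filter (fun z => tz z ∈ B)).card ≤ (Z.filter (fun z => tz z ∈ B.erase v)).card + _
        have h5 : Z.filter (fun z => tz z ∈ B) ⊆
            Z.filter (fun z => tz z ∈ B.erase v) ∪ Z.filter (fun z => tz z = v) := by
          intro z hz
          rw [mem_filter] at hz
          rw [mem_union, mem_filter, mem_filter]
          by_cases hzv : tz z = v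
          · right; exact ⟨hz.1, hzv⟩
          · left; exact ⟨hz.1, mem_erase.2 ⟨hzv, hz.2⟩⟩
        exact (card_le_card h5).trans (card_union_le _ _)
      have := hc v
      omega
  have hsum : n B + (Z.filter (fun z => ¬ (tz z ∈ B))).card = Z.card :=
    card_filter_add_card_filter_not _
  have hsumX : m B + (X.filter (fun x => ¬ (tx x ∈ B))).card = X.card :=
    card_filter_add_card_filter_not _
  by_cases hm : X.card ≤ 2 * m B
  · refine ⟨Z.filter (fun z => ¬ (tz z ∈ B)), X.filter (fun x => tx x ∈ B), filter_subset _ _,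
      filter_subset _ _, by omega, hm, ?_⟩
    intro z hz x hx h
    rw [mem_filter] at hz hx
    exact hz.2 (h ▸ hx.2)
  · refine ⟨Z.filter (fun z => tz z ∈ B), X.filter (fun x => ¬ (tx x ∈ B)), filter_subset _ _,
      filter_subset _ _, hB, by omega, ?_⟩
    intro z hz x hx h
    rw [mem_filter] at hz hx
    exact hx.2 (h ▸ hz.2)

section

variable {W : Type*} [Field W] {q : ℕ}

/-- the exponent killing `K^*` and `E^*`. -/
def M (q : ℕ) : ℕ := (q ^ 3 - 1) * (q + 1)

lemma pow_sub_one_of_fix {N : ℕ} {x : W} (hN : 0 < N) (hx : Fix N x) (h0 : x ≠ 0) :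
    x ^ (N - 1) = 1 := by
  have h1 : x ^ (N - 1) * x = 1 * x := by
    rw [← pow_succ, Nat.sub_add_cancel hN, one_mul]; exact hx
  exact mul_right_cancel₀ h0 h1

lemma pow_M_K {x : W} (hq : 0 < q) (hx : Fix (q ^ 3) x) (h0 : x ≠ 0) : x ^ M q = 1 := by
  unfold M
  rw [pow_mul, pow_sub_one_of_fix (pow_pos hq 3) hx h0, one_pow]

lemma dvd_M (hq : 0 < q) : q ^ 2 - 1 ∣ M q := by
  unfold M
  have h1 : q ^ 2 - 1 = (q - 1) * (q + 1) := by
    obtain ⟨r, rfl⟩ := Nat.exists_eq_add_of_lt hq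
    simp only [zero_add]
    rw [Nat.add_sub_cancel]
    rw [Nat.sub_eq_iff_eq_add (Nat.one_le_pow _ _ (by omega))]
    ring
  have h2 : q - 1 ∣ q ^ 3 - 1 := by
    have := Nat.sub_dvd_pow_sub_pow q 1 3
    simpa using this
  rw [h1]
  exact mul_dvd_mul_right h2 _

lemma pow_M_E {x : W} (hq : 0 < q) (hx : Fix (q ^ 2) x) (h0 : x ≠ 0) : x ^ M q = 1 := by
  obtain ⟨k, hk⟩ := dvd_M hq
  rw [hk, pow_mul, pow_sub_one_of_fix (pow_pos hq 2) hx h0, one_pow]

lemma pow_M_L {x : W} (hq : 0 < q) (hx : Fix (q ^ 2) x) (h0 : x ≠ 0) : x ^ M q = 1 :=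
  pow_M_E hq hx h0

/-- fibres of the class map on the line. -/
lemma fiber_T (h : Fr W q) {θ : W} (hθ : ¬ Fix (q ^ 3) θ) (Z : Finset W)
    (hZ : ∀ z ∈ Z, Fix (q ^ 3) z) [DecidableEq W] (v : W) :
    (Z.filter (fun z => (θ + z) ^ M q = v)).card ≤ q + 1 := by
  classical
  have hF3 := h.pow 3
  have hne : ∀ z, Fix (q ^ 3) z → θ + z ≠ 0 := by
    intro z hz h0
    apply hθ
    have : θ = 0 - z := by linear_combination h0
    rw [this]
    exact Fix.sub hF3 (by unfold Fix; rw [zero_pow (pow_pos h.1 3).ne']) hz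
  have hw : ∀ z, Fix (q ^ 3) z → (θ + z) ^ (q ^ 3 - 1) = (θ ^ (q ^ 3) + z) / (θ + z) := by
    intro z hz
    rw [eq_div_iff (hne z hz), ← pow_succ, Nat.sub_add_cancel (pow_pos h.1 3), hF3.2,
      show z ^ q ^ 3 = z from hz]
  have hinj : Set.InjOn (fun z => (θ + z) ^ (q ^ 3 - 1))
      (Z.filter (fun z => (θ + z) ^ M q = v)) := by
    intro z hz z' hz' he
    have a1 := hZ z (mem_filter.1 hz).1
    have a2 := hZ z' (mem_filter.1 hz').1
    simp only at he
    rw [hw z a1, hw z' a2, div_eq_div_iff (hne z a1) (hne z' a2)] at he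
    have h3 : (θ ^ (q ^ 3) - θ) * (z' - z) = 0 := by linear_combination he
    rcases mul_eq_zero.1 h3 with h4 | h4
    · exact absurd (sub_eq_zero.1 h4) hθ
    · exact (sub_eq_zero.1 h4).symm
  rw [← card_image_of_injOn hinj]
  have hsub : (Z.filter (fun z => (θ + z) ^ M q = v)).image (fun z => (θ + z) ^ (q ^ 3 - 1)) ⊆
      (nthRoots (q + 1) v).toFinset := by
    intro w hwm
    obtain ⟨z, hz, rfl⟩ := mem_image.1 hwm
    rw [Multiset.mem_toFinset, mem_nthRoots (Nat.succ_pos q), ← pow_mul]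
    exact (mem_filter.1 hz).2
  calc _ ≤ _ := card_le_card hsub
    _ ≤ _ := Multiset.toFinset_card_le _
    _ ≤ _ := card_nthRoots _ _

end

end Pool.Agent.SC
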