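import Pool.Agent.SC.Assemble

set_option autoImplicit false

open Finset

namespace Pool.Agent.SC

/-- counting function -/
noncomputable def cnt (A : Set ℕ) (N : ℕ) : ℕ := (A ∩ Set.Icc 1 N).ncard

lemma cnt_mono (A : Set ℕ) {N N' : ℕ} (h : N ≤ N') : cnt A N ≤ cnt A N' := by
  apply Set.ncard_le_ncard
  · exact Set.inter_subset_inter_right _ (Set.Icc_subset_Icc_right h)
  · exact (Set.finite_Icc 1 N').subset Set.inter_subset_right

/-- property delivered by `exists_set` -/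
def Good (p : ℕ) (A : Set ℕ) : Prop := ∀ k D, 1 ≤ D → D ≤ rr p k →
      D * ss p k ≤ 2 * (rr p k * cnt A (4 * 8 ^ k * D * mprev p k))

lemma level {p : ℕ} (hp : 2 ≤ p) {A : Set ℕ} (hA : Good p A) (k N : ℕ)
    (hN : 4 * 8 ^ k * mprev p k ≤ N) :
    ss p k * min (8 * 8 ^ k * mm p k) N ≤ 2 * (cnt A N * (8 * 8 ^ k * mm p k)) := by
  have hmm : mm p k = mprev p k * rr p k := by
    rw [← prod_rr hp, prod_range_succ]; rfl
  have hrr := rr_pos hp k
  have hmp : 0 < mprev p k := by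
    have := mm_pos hp k
    rw [hmm] at this
    exact Nat.pos_of_mul_pos_right this
  set c := 4 * 8 ^ k * mprev p k with hc
  have hcpos : 0 < c := by positivity
  have hD0 : 1 ≤ N / c := (Nat.one_le_div_iff hcpos).2 hN
  by_cases h : N / c ≤ rr p k
  · have h1 := hA k (N / c) hD0 h
    have h2 : 4 * 8 ^ k * (N / c) * mprev p k ≤ N := by
      calc 4 * 8 ^ k * (N / c) * mprev p k = c * (N / c) := by rw [hc]; ring
        _ ≤ N := Nat.mul_div_le _ _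
    have h3 := cnt_mono A h2
    have h4 : N < c * (N / c + 1) := Nat.lt_mul_div_succ N hcpos
    have h5 : N ≤ 2 * c * (N / c) := by nlinarith
    calc ss p k * min (8 * 8 ^ k * mm p k) N ≤ ss p k * N := Nat.mul_le_mul_left _ (min_le_right _ _)
      _ ≤ ss p k * (2 * c * (N / c)) := Nat.mul_le_mul_left _ h5
      _ = 2 * c * (N / c * ss p k) := by ring
      _ ≤ 2 * c * (2 * (rr p k * cnt A N)) := Nat.mul_le_mul_left _
          (h1.trans (Nat.mul_le_mul_left _ (Nat.mul_le_mul_left _ h3)))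
      _ = 2 * (cnt A N * (8 * 8 ^ k * mm p k)) := by rw [hmm, hc]; ring
  · push Not at h
    have h1 := hA k (rr p k) hrr le_rfl
    have h2 : 4 * 8 ^ k * rr p k * mprev p k ≤ N := by
      calc 4 * 8 ^ k * rr p k * mprev p k = c * rr p k := by rw [hc]; ring
        _ ≤ c * (N / c) := Nat.mul_le_mul_left _ h.le
        _ ≤ N := Nat.mul_div_le _ _
    have h3 := cnt_mono A h2
    have h4 : ss p k ≤ 2 * cnt A N := by
      have h5 : rr p k * ss p k ≤ rr p k * (2 * cnt A N) := by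
        calc rr p k * ss p k ≤ 2 * (rr p k * cnt A (4 * 8 ^ k * rr p k * mprev p k)) := h1
          _ ≤ 2 * (rr p k * cnt A N) := Nat.mul_le_mul_left _ (Nat.mul_le_mul_left _ h3)
          _ = _ := by ring
      exact Nat.le_of_mul_le_mul_left h5 hrr
    calc ss p k * min (8 * 8 ^ k * mm p k) N ≤ ss p k * (8 * 8 ^ k * mm p k) :=
          Nat.mul_le_mul_left _ (min_le_left _ _)
      _ ≤ (2 * cnt A N) * (8 * 8 ^ k * mm p k) := Nat.mul_le_mul_right _ h4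
      _ = _ := by ring

lemma mprev_succ {p : ℕ} (hp : 2 ≤ p) (k : ℕ) : mprev p (k + 1) = mm p k := prod_rr hp k

lemma mm_even_le {p : ℕ} (hp : 2 ≤ p) (i : ℕ) : mm p (2 * i) ≤ 2 * (qq p i) ^ 4 := by
  rw [mm_even, M_eq]
  have h1 := qq_pos hp i
  calc ((qq p i) ^ 3 - 1) * (qq p i + 1) ≤ (qq p i) ^ 3 * (2 * qq p i) :=
        Nat.mul_le_mul (Nat.sub_le _ _) (by omega)
    _ = _ := by ring

lemma mm_even_ge {p : ℕ} (hp : 2 ≤ p) (i : ℕ) : (qq p i) ^ 4 ≤ mm p (2 * i) := by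
  rw [mm_even, M_eq]
  have h1 := qq_pos hp i
  obtain ⟨a, ha⟩ : ∃ a, (qq p i) ^ 3 = a + 1 := ⟨(qq p i) ^ 3 - 1, by
    have : 1 ≤ (qq p i) ^ 3 := Nat.one_le_pow _ _ (by omega)
    omega⟩
  have e1 : (qq p i) ^ 3 - 1 = a := by omega
  have h2 : qq p i ≤ a := by
    have : 2 * qq p i ≤ (qq p i) ^ 3 := by
      calc 2 * qq p i ≤ qq p i * qq p i := Nat.mul_le_mul_right _ h1
        _ = (qq p i) ^ 2 := by ring
        _ ≤ _ := Nat.pow_le_pow_right (by omega) (by norm_num)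
    omega
  rw [e1]
  calc (qq p i) ^ 4 = (qq p i) ^ 3 * qq p i := by ring
    _ = (a + 1) * qq p i := by rw [ha]
    _ = a * qq p i + qq p i := by ring
    _ ≤ a * qq p i + a := by omega
    _ = _ := by ring

section bounds

variable {A : Set ℕ} (hA : Good 101 A)

lemma small (i : ℕ) (hi : 2 ≤ i) : 256 * 64 ^ i ≤ qq 101 i := by
  induction i, hi using Nat.le_induction with
  | base => norm_num [qq]
  | succ n hn ih =>
    rw [qq_succ]
    have h1 : 64 ≤ qq 101 n := by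
      have : 1 ≤ 64 ^ n := Nat.one_le_pow _ _ (by norm_num)
      omega
    calc 256 * 64 ^ (n + 1) = (256 * 64 ^ n) * 64 := by ring
      _ ≤ qq 101 n * qq 101 n := Nat.mul_le_mul ih h1
      _ = _ := by ring

include hA

lemma boundA (i : ℕ) (hi : 2 ≤ i) (N : ℕ) (hN : (qq 101 i) ^ 4 ≤ N) :
    (qq 101 i) ^ 2 ≤ 34816 * 64 ^ i * cnt A N := by
  have hs := small i hi
  obtain ⟨j, rfl⟩ : ∃ j, i = j + 1 := ⟨i - 1, by omega⟩
  set T := qq 101 (j + 1) with hT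
  have h64 : 1 ≤ 64 ^ (j + 1) := Nat.one_le_pow _ _ (by norm_num)
  have hmp : mprev 101 (2 * (j + 1)) ≤ T ^ 3 := by
    rw [show 2 * (j + 1) = (2 * j + 1) + 1 by ring, mprev_succ (by norm_num), mm_odd, hT, qq_succ,
      ← pow_mul]
    exact Nat.sub_le _ _
  have h8 : (8 : ℕ) ^ (2 * (j + 1)) = 64 ^ (j + 1) := by rw [pow_mul]; norm_num
  have h1 : 4 * 8 ^ (2 * (j + 1)) * mprev 101 (2 * (j + 1)) ≤ N := by
    rw [h8]
    calc 4 * 64 ^ (j + 1) * mprev 101 (2 * (j + 1)) ≤ T * T ^ 3 :=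
          Nat.mul_le_mul (by omega) hmp
      _ = T ^ 4 := by ring
      _ ≤ N := hN
  have h2 := level (by norm_num) hA (2 * (j + 1)) N h1
  rw [h8, ss_even, ← hT] at h2
  have h3 := mm_even_ge (p := 101) (by norm_num) (j + 1)
  have h4 := mm_even_le (p := 101) (by norm_num) (j + 1)
  rw [← hT] at h3 h4
  have h5 : T ^ 4 ≤ min (8 * 64 ^ (j + 1) * mm 101 (2 * (j + 1))) N := by
    apply le_min _ hN
    calc T ^ 4 ≤ 1 * mm 101 (2 * (j + 1)) := by omega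
      _ ≤ _ := Nat.mul_le_mul_right _ (by omega)
  have h6 : T ^ 2 / 16 * T ^ 4 ≤ (32 * 64 ^ (j + 1) * cnt A N) * T ^ 4 := by
    calc T ^ 2 / 16 * T ^ 4 ≤ _ := (Nat.mul_le_mul_left _ h5).trans h2
      _ ≤ 2 * (cnt A N * (8 * 64 ^ (j + 1) * (2 * T ^ 4))) :=
          Nat.mul_le_mul_left _ (Nat.mul_le_mul_left _ (Nat.mul_le_mul_left _ h4))
      _ = _ := by ring
  have hTpos : 0 < T ^ 4 := by
    have : 0 < T := by omega
    positivity
  have h7 := Nat.le_of_mul_le_mul_right h6 hTpos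
  have h8 : 16 ≤ T ^ 2 := by nlinarith
  have h9 : T ^ 2 ≤ 32 * (T ^ 2 / 16) := by omega
  calc T ^ 2 ≤ 32 * (T ^ 2 / 16) := h9
    _ ≤ 32 * (32 * 64 ^ (j + 1) * cnt A N) := Nat.mul_le_mul_left _ h7
    _ = 1024 * (64 ^ (j + 1) * cnt A N) := by ring
    _ ≤ 34816 * (64 ^ (j + 1) * cnt A N) := Nat.mul_le_mul_right _ (by norm_num)
    _ = _ := by ring

lemma boundC (i : ℕ) (hi : 2 ≤ i) (N : ℕ) (hN : (qq 101 i) ^ 6 ≤ N) :
    (qq 101 i) ^ 3 ≤ 34816 * 64 ^ i * cnt A N := by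
  have hs := small i hi
  set T := qq 101 i with hT
  have h64' : 64 ≤ 64 ^ i := Nat.le_self_pow (by omega) 64
  have h64 : 1 ≤ 64 ^ i := by omega
  have hT272 : 272 ≤ T := by omega
  have h4 := mm_even_le (p := 101) (by norm_num) i
  rw [← hT] at h4
  have h8 : (8 : ℕ) ^ (2 * i + 1) = 8 * 64 ^ i := by rw [pow_succ, pow_mul]; norm_num; ring
  have h1 : 4 * 8 ^ (2 * i + 1) * mprev 101 (2 * i + 1) ≤ N := by
    rw [h8, mprev_succ (by norm_num)]
    calc 4 * (8 * 64 ^ i) * mm 101 (2 * i) ≤ 4 * (8 * 64 ^ i) * (2 * T ^ 4) :=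
          Nat.mul_le_mul_left _ h4
      _ = (64 * 64 ^ i) * T ^ 4 := by ring
      _ ≤ T ^ 2 * T ^ 4 := Nat.mul_le_mul_right _ (by nlinarith)
      _ = T ^ 6 := by ring
      _ ≤ N := hN
  have h2 := level (by norm_num) hA (2 * i + 1) N h1
  rw [h8, ss_odd, mm_odd, ← hT] at h2
  have hT1 : 1 ≤ T ^ 6 := Nat.one_le_pow _ _ (by omega)
  have h5 : T ^ 6 ≤ min (8 * (8 * 64 ^ i) * (T ^ 6 - 1)) N := by
    apply le_min _ hN
    have h2T : 2 ≤ T ^ 6 := by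
      calc 2 ≤ T := by omega
        _ ≤ T ^ 6 := Nat.le_self_pow (by norm_num) T
    calc T ^ 6 ≤ 2 * (T ^ 6 - 1) := by omega
      _ ≤ _ := Nat.mul_le_mul_right _ (by omega)
  have h6 : T ^ 3 / 16 * T ^ 6 ≤ (128 * 64 ^ i * cnt A N) * T ^ 6 := by
    calc T ^ 3 / 16 * T ^ 6 ≤ _ := (Nat.mul_le_mul_left _ h5).trans h2
      _ ≤ 2 * (cnt A N * (8 * (8 * 64 ^ i) * T ^ 6)) :=
          Nat.mul_le_mul_left _ (Nat.mul_le_mul_left _ (Nat.mul_le_mul_left _ (Nat.sub_le _ _)))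
      _ = _ := by ring
  have hTpos : 0 < T ^ 6 := by omega
  have h7 := Nat.le_of_mul_le_mul_right h6 hTpos
  have h8 : 272 ≤ T ^ 3 := by
    calc 272 ≤ T := hT272
      _ ≤ T ^ 3 := Nat.le_self_pow (by norm_num) T
  have h9 : T ^ 3 ≤ 17 * (T ^ 3 / 16) := by omega
  calc T ^ 3 ≤ 17 * (T ^ 3 / 16) := h9
    _ ≤ 17 * (128 * 64 ^ i * cnt A N) := Nat.mul_le_mul_left _ h7
    _ = 2176 * (64 ^ i * cnt A N) := by ring
    _ ≤ 34816 * (64 ^ i * cnt A N) := Nat.mul_le_mul_right _ (by norm_num)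
    _ = _ := by ring

lemma boundB (i : ℕ) (hi : 2 ≤ i) (N : ℕ) (hN : (qq 101 i) ^ 4 ≤ N) (hN' : N ≤ (qq 101 i) ^ 6) :
    N ≤ 34816 * 64 ^ i * cnt A N * (qq 101 i) ^ 3 := by
  have hs := small i hi
  have hA' := boundA hA i hi N hN
  set T := qq 101 i with hT
  have h64' : 64 ≤ 64 ^ i := Nat.le_self_pow (by omega) 64
  have h64 : 1 ≤ 64 ^ i := by omega
  have hT272 : 272 ≤ T := by omega
  have h4 := mm_even_le (p := 101) (by norm_num) i
  rw [← hT] at h4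
  have h8 : (8 : ℕ) ^ (2 * i + 1) = 8 * 64 ^ i := by rw [pow_succ, pow_mul]; norm_num; ring
  have hT1 : 1 ≤ T ^ 6 := Nat.one_le_pow _ _ (by omega)
  by_cases h1 : 4 * 8 ^ (2 * i + 1) * mprev 101 (2 * i + 1) ≤ N
  · have h2 := level (by norm_num) hA (2 * i + 1) N h1
    rw [h8, ss_odd, mm_odd, ← hT] at h2
    have h5 : N ≤ min (8 * (8 * 64 ^ i) * (T ^ 6 - 1)) N := by
      apply le_min _ le_rfl
      have h2T : 2 ≤ T ^ 6 := by
        calc 2 ≤ T := by omega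
          _ ≤ T ^ 6 := Nat.le_self_pow (by norm_num) T
      calc N ≤ 2 * (T ^ 6 - 1) := by omega
        _ ≤ _ := Nat.mul_le_mul_right _ (by omega)
    have h6 : T ^ 3 / 16 * N ≤ (128 * 64 ^ i * cnt A N) * T ^ 6 := by
      calc T ^ 3 / 16 * N ≤ _ := (Nat.mul_le_mul_left _ h5).trans h2
        _ ≤ 2 * (cnt A N * (8 * (8 * 64 ^ i) * T ^ 6)) :=
            Nat.mul_le_mul_left _ (Nat.mul_le_mul_left _ (Nat.mul_le_mul_left _ (Nat.sub_le _ _)))
        _ = _ := by ring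
    have h8 : 272 ≤ T ^ 3 := by
      calc 272 ≤ T := hT272
        _ ≤ T ^ 3 := Nat.le_self_pow (by norm_num) T
    have h9 : T ^ 3 ≤ 17 * (T ^ 3 / 16) := by omega
    have h10 : N * T ^ 3 ≤ (34816 * 64 ^ i * cnt A N * T ^ 3) * T ^ 3 := by
      calc N * T ^ 3 ≤ N * (17 * (T ^ 3 / 16)) := Nat.mul_le_mul_left _ h9
        _ = 17 * (T ^ 3 / 16 * N) := by ring
        _ ≤ 17 * ((128 * 64 ^ i * cnt A N) * T ^ 6) := Nat.mul_le_mul_left _ h6
        _ = 2176 * (64 ^ i * cnt A N * T ^ 3 * T ^ 3) := by ring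
        _ ≤ 34816 * (64 ^ i * cnt A N * T ^ 3 * T ^ 3) := Nat.mul_le_mul_right _ (by norm_num)
        _ = _ := by ring
    exact Nat.le_of_mul_le_mul_right h10 (by omega)
  · push Not at h1
    rw [h8, mprev_succ (by norm_num)] at h1
    have h5 : N ≤ T ^ 2 * T ^ 3 := by
      calc N ≤ 4 * (8 * 64 ^ i) * mm 101 (2 * i) := h1.le
        _ ≤ 4 * (8 * 64 ^ i) * (2 * T ^ 4) := Nat.mul_le_mul_left _ h4
        _ = (64 * 64 ^ i) * T ^ 4 := by ring
        _ ≤ T * T ^ 4 := Nat.mul_le_mul_right _ (by omega)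
        _ = _ := by ring
    exact h5.trans (Nat.mul_le_mul_right _ hA')

lemma boundD (i : ℕ) (hi : 2 ≤ i) (N : ℕ) (hN : (qq 101 i) ^ 6 ≤ N) (hN' : N ≤ (qq 101 i) ^ 8) :
    N ≤ 34816 * 64 ^ i * cnt A N * (qq 101 i) ^ 4 := by
  have hs := small i hi
  have hC' := boundC hA i hi N hN
  have h4 := mm_even_le (p := 101) (by norm_num) (i + 1)
  have h3 := mm_even_ge (p := 101) (by norm_num) (i + 1)
  rw [qq_succ] at h3 h4
  set T := qq 101 i with hT
  have h64' : 64 ≤ 64 ^ i := Nat.le_self_pow (by omega) 64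
  have h64 : 1 ≤ 64 ^ i := by omega
  have hT272 : 272 ≤ T := by omega
  have h8 : (8 : ℕ) ^ (2 * (i + 1)) = 64 * 64 ^ i := by rw [pow_mul, pow_succ]; norm_num; ring
  have hmp : mprev 101 (2 * (i + 1)) = T ^ 6 - 1 := by
    rw [show 2 * (i + 1) = (2 * i + 1) + 1 by ring, mprev_succ (by norm_num), mm_odd]
  by_cases h1 : 4 * 8 ^ (2 * (i + 1)) * mprev 101 (2 * (i + 1)) ≤ N
  · have h2 := level (by norm_num) hA (2 * (i + 1)) N h1
    rw [h8, ss_even, qq_succ, ← hT] at h2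
    have h5 : N ≤ min (8 * (64 * 64 ^ i) * mm 101 (2 * (i + 1))) N := by
      apply le_min _ le_rfl
      calc N ≤ T ^ 8 := hN'
        _ = (T ^ 2) ^ 4 := by ring
        _ ≤ 1 * mm 101 (2 * (i + 1)) := by omega
        _ ≤ _ := Nat.mul_le_mul_right _ (by omega)
    have h6 : (T ^ 2) ^ 2 / 16 * N ≤ (2048 * 64 ^ i * cnt A N) * T ^ 8 := by
      calc (T ^ 2) ^ 2 / 16 * N ≤ _ := (Nat.mul_le_mul_left _ h5).trans h2
        _ ≤ 2 * (cnt A N * (8 * (64 * 64 ^ i) * (2 * (T ^ 2) ^ 4))) :=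
            Nat.mul_le_mul_left _ (Nat.mul_le_mul_left _ (Nat.mul_le_mul_left _ h4))
        _ = _ := by ring
    have h8 : 272 ≤ (T ^ 2) ^ 2 := by
      calc 272 ≤ T := hT272
        _ ≤ T ^ 4 := Nat.le_self_pow (by norm_num) T
        _ = _ := by ring
    have h9 : (T ^ 2) ^ 2 ≤ 17 * ((T ^ 2) ^ 2 / 16) := by omega
    have h10 : N * T ^ 4 ≤ (34816 * 64 ^ i * cnt A N * T ^ 4) * T ^ 4 := by
      calc N * T ^ 4 = N * (T ^ 2) ^ 2 := by ring
        _ ≤ N * (17 * ((T ^ 2) ^ 2 / 16)) := Nat.mul_le_mul_left _ h9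
        _ = 17 * ((T ^ 2) ^ 2 / 16 * N) := by ring
        _ ≤ 17 * ((2048 * 64 ^ i * cnt A N) * T ^ 8) := Nat.mul_le_mul_left _ h6
        _ = _ := by ring
    exact Nat.le_of_mul_le_mul_right h10 (pow_pos (by omega) 4)
  · push Not at h1
    rw [h8, hmp] at h1
    have h5 : N ≤ T ^ 3 * T ^ 4 := by
      calc N ≤ 4 * (64 * 64 ^ i) * (T ^ 6 - 1) := h1.le
        _ ≤ 4 * (64 * 64 ^ i) * T ^ 6 := Nat.mul_le_mul_left _ (Nat.sub_le _ _)
        _ = (256 * 64 ^ i) * T ^ 6 := by ring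
        _ ≤ T * T ^ 6 := Nat.mul_le_mul_right _ hs
        _ = _ := by ring
    exact h5.trans (Nat.mul_le_mul_right _ hC')

end bounds

end Pool.Agent.SC
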