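import Pool.Agent.SC.Count

set_option autoImplicit false

open Polynomial Finset

namespace Pool.Agent.SC

section

variable {W : Type*} [Field W] {q : ℕ}

lemma R_ne_of_vc {θ α : W} (hα : Fix (q ^ 2) α) (hv : vc q θ α ≠ 0) : R q α θ ≠ 0 := by
  intro h
  apply hv
  unfold R at h
  unfold vc
  have h2 : (α ^ q) ^ q = α := by rw [← pow_mul, ← pow_two]; exact hα
  rcases mul_eq_zero.1 h with h1 | h1
  · rw [sub_eq_zero.1 h1]; ring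
  · rw [sub_eq_zero.1 h1, h2]; ring

/-- the element attached to `α`. -/
noncomputable def xf (q : ℕ) (θ ϑ α : W) : W := R q α ϑ / R q α θ

lemma xf_conj {θ ϑ α : W} (hα : Fix (q ^ 2) α) : xf q θ ϑ (α ^ q) = xf q θ ϑ α := by
  unfold xf
  rw [R_conj hα, R_conj hα]

lemma xf_sidon (h : Fr W q) {θ ϑ α β γ δ : W} (hθ : Fix (q ^ 2) θ) (hθ' : ¬ Fix q θ)
    (hϑ : Fix (q ^ 3) ϑ) (hϑ' : ¬ Fix q ϑ) (hα : Fix (q ^ 2) α) (hβ : Fix (q ^ 2) β)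
    (hγ : Fix (q ^ 2) γ) (hδ : Fix (q ^ 2) δ)
    (nα : vc q θ α ≠ 0) (nβ : vc q θ β ≠ 0) (nγ : vc q θ γ ≠ 0) (nδ : vc q θ δ ≠ 0)
    (he : xf q θ ϑ α * xf q θ ϑ β = xf q θ ϑ γ * xf q θ ϑ δ) :
    (xf q θ ϑ α = xf q θ ϑ γ ∧ xf q θ ϑ β = xf q θ ϑ δ) ∨
      (xf q θ ϑ α = xf q θ ϑ δ ∧ xf q θ ϑ β = xf q θ ϑ γ) := by
  have hϑ2 : ¬ Fix (q ^ 2) ϑ := fun h2 => hϑ' (h2.of_two_three hϑ)
  have ne : ∀ x : W, Fix (q ^ 2) x → vc q θ x ≠ 0 → xf q θ ϑ x ≠ 0 := fun x hx hv =>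
    div_ne_zero (R_ne hx hϑ2) (R_ne_of_vc hx hv)
  have hh := sidonQ h hθ hθ' hϑ hϑ' hα hβ hγ hδ (R_ne_of_vc hα nα) (R_ne_of_vc hβ nβ)
    (R_ne_of_vc hγ nγ) (R_ne_of_vc hδ nδ) he
  have h1 : xf q θ ϑ α = xf q θ ϑ γ ∨ xf q θ ϑ α = xf q θ ϑ δ := by
    rcases hh with e | e | e | e
    · left; rw [e]
    · left; rw [e, xf_conj hγ]
    · right; rw [e]
    · right; rw [e, xf_conj hδ]
  rcases h1 with h2 | h2
  · left
    refine ⟨h2, ?_⟩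
    rw [h2] at he
    exact mul_left_cancel₀ (ne γ hγ nγ) he
  · right
    refine ⟨h2, ?_⟩
    rw [h2, mul_comm (xf q θ ϑ γ)] at he
    exact mul_left_cancel₀ (ne δ hδ nδ) he

lemma xf_fiber (h : Fr W q) {θ ϑ α γ : W} (hθ : Fix (q ^ 2) θ) (hθ' : ¬ Fix q θ)
    (hϑ : Fix (q ^ 3) ϑ) (hϑ' : ¬ Fix q ϑ) (hα : Fix (q ^ 2) α)
    (hγ : Fix (q ^ 2) γ) (nα : vc q θ α ≠ 0) (nγ : vc q θ γ ≠ 0)
    (he : xf q θ ϑ α = xf q θ ϑ γ) : α = γ ∨ α = γ ^ q := by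
  have hh := sidonQ h hθ hθ' hϑ hϑ' hα hα hγ hγ (R_ne_of_vc hα nα) (R_ne_of_vc hα nα)
    (R_ne_of_vc hγ nγ) (R_ne_of_vc hγ nγ) (by
      have : xf q θ ϑ α * xf q θ ϑ α = xf q θ ϑ γ * xf q θ ϑ γ := by rw [he]
      exact this)
  tauto

lemma xf_image_card [DecidableEq W] (h : Fr W q) {θ ϑ : W} (hθ : Fix (q ^ 2) θ) (hθ' : ¬ Fix q θ)
    (hϑ : Fix (q ^ 3) ϑ) (hϑ' : ¬ Fix q ϑ) (X : Finset W)
    (hX : ∀ α ∈ X, Fix (q ^ 2) α ∧ vc q θ α ≠ 0) :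
    X.card ≤ 2 * (X.image (xf q θ ϑ)).card := by
  apply card_le_mul_card_image
  intro v hv
  obtain ⟨γ, hγ, rfl⟩ := mem_image.1 hv
  have hsub : X.filter (fun a => xf q θ ϑ a = xf q θ ϑ γ) ⊆ {γ, γ ^ q} := by
    intro a ha
    rw [mem_filter] at ha
    rw [mem_insert, mem_singleton]
    exact xf_fiber h hθ hθ' hϑ hϑ' (hX a ha.1).1 (hX γ hγ).1 (hX a ha.1).2 (hX γ hγ).2 ha.2
  exact (card_le_card hsub).trans card_le_two

end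

section

variable (W : Type*) [Field W] [IsAlgClosed W] (p : ℕ) [Fact p.Prime] [CharP W p]

lemma exists_base (n : ℕ) (hn : n ≠ 0) : ∃ θ ϑ : W, Fix ((p ^ n) ^ 2) θ ∧ ¬ Fix (p ^ n) θ ∧
    Fix ((p ^ n) ^ 3) ϑ ∧ ¬ Fix (p ^ n) ϑ := by
  classical
  have hp : p.Prime := Fact.out
  obtain ⟨S1, h1, c1⟩ := exists_fix W p n hn
  obtain ⟨S2, h2, c2⟩ := exists_fix W p (n * 2) (by omega)
  obtain ⟨S3, h3, c3⟩ := exists_fix W p (n * 3) (by omega)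
  have key : ∀ (S : Finset W) (k : ℕ), 1 < k → S.card = p ^ (n * k) → ∃ x ∈ S, x ∉ S1 := by
    intro S k hk hS
    by_contra hcon
    push Not at hcon
    have hsub : S ⊆ S1 := hcon
    have := card_le_card hsub
    rw [hS, c1] at this
    have hlt : p ^ n < p ^ (n * k) := Nat.pow_lt_pow_right hp.one_lt (by nlinarith [Nat.pos_of_ne_zero hn])
    omega
  obtain ⟨θ, hθ, hθ'⟩ := key S2 2 (by norm_num) c2
  obtain ⟨ϑ, hϑ, hϑ'⟩ := key S3 3 (by norm_num) c3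
  refine ⟨θ, ϑ, ?_, ?_, ?_, ?_⟩
  · rw [← pow_mul]; exact (h2 θ).1 hθ
  · exact fun hh => hθ' ((h1 θ).2 hh)
  · rw [← pow_mul]; exact (h3 ϑ).1 hϑ
  · exact fun hh => hϑ' ((h1 ϑ).2 hh)

/-- all parameters `α` of level `n`. -/
lemma exists_params (n : ℕ) (hn : n ≠ 0) (θ : W) : ∃ X : Finset W,
    (∀ α ∈ X, Fix ((p ^ n) ^ 2) α ∧ vc (p ^ n) θ α ≠ 0) ∧
      (p ^ n) ^ 2 ≤ X.card + (p ^ n + 1) := by
  classical
  obtain ⟨S2, h2, c2⟩ := exists_fix W p (n * 2) (by omega)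
  refine ⟨S2.filter (fun α => ¬ (vc (p ^ n) θ α = 0)), ?_, ?_⟩
  · intro α hα
    rw [mem_filter] at hα
    exact ⟨by rw [← pow_mul]; exact (h2 α).1 hα.1, hα.2⟩
  · have h3 := card_filter_add_card_filter_not (s := S2) (fun α => vc (p ^ n) θ α = 0)
    have h4 : (S2.filter (fun α => vc (p ^ n) θ α = 0)).card ≤ p ^ n + 1 := by
      have hsub : S2.filter (fun α => vc (p ^ n) θ α = 0) ⊆
          (nthRoots (p ^ n + 1) (θ ^ (p ^ n + 1))).toFinset := by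
        intro α hα
        rw [mem_filter] at hα
        rw [Multiset.mem_toFinset, mem_nthRoots (Nat.succ_pos _)]
        have := hα.2
        unfold vc at this
        rw [pow_succ, pow_succ]
        linear_combination this
      exact (card_le_card hsub).trans ((Multiset.toFinset_card_le _).trans (card_nthRoots _ _))
    rw [c2, pow_mul] at h3
    omega

/-- the pair (line below, quadratics over the quadratic extension above). -/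
lemma split_pair (n : ℕ) (hn : n ≠ 0) {θ θ' ϑ' : W} (hθ : Fix ((p ^ n) ^ 2) θ)
    (hθ1 : ¬ Fix (p ^ n) θ)
    (hθ2 : Fix (((p ^ n) ^ 2) ^ 2) θ') (hθ' : ¬ Fix ((p ^ n) ^ 2) θ')
    (hϑ : Fix (((p ^ n) ^ 2) ^ 3) ϑ') (hϑ' : ¬ Fix ((p ^ n) ^ 2) ϑ') :
    ∃ Z X : Finset W, (∀ z ∈ Z, Fix ((p ^ n) ^ 3) z) ∧
      (∀ α ∈ X, Fix (((p ^ n) ^ 2) ^ 2) α ∧ vc ((p ^ n) ^ 2) θ' α ≠ 0) ∧
      (p ^ n) ^ 3 ≤ 4 * Z.card ∧ ((p ^ n) ^ 2) ^ 2 ≤ 2 * X.card + ((p ^ n) ^ 2 + 1) ∧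
      ∀ z ∈ Z, ∀ z' ∈ Z, ∀ α ∈ X, ∀ β ∈ X, z ≠ z' →
        (θ + z) * xf ((p ^ n) ^ 2) θ' ϑ' β ≠ (θ + z') * xf ((p ^ n) ^ 2) θ' ϑ' α := by
  classical
  have hp : p.Prime := Fact.out
  set q := p ^ n with hq
  have hqpos : 0 < q := pow_pos hp.pos n
  have hFr : Fr W q := fr_of_char W p n
  have hFr2 : Fr W (q ^ 2) := hFr.pow 2
  have hq2 : 2 ≤ q := (hp.two_le.trans (Nat.le_self_pow hn p))
  obtain ⟨K, hK, cK⟩ := exists_fix W p (n * 3) (by omega)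
  obtain ⟨X, hX, cX⟩ := exists_params W p (n * 2) (by omega) θ'
  rw [pow_mul, ← hq] at cK cX
  have hX' : ∀ α ∈ X, Fix ((q ^ 2) ^ 2) α ∧ vc (q ^ 2) θ' α ≠ 0 := by
    intro α hα
    have := hX α hα
    rw [pow_mul, ← hq] at this
    exact this
  have hK' : ∀ z ∈ K, Fix (q ^ 3) z := by
    intro z hz
    have := (hK z).1 hz
    rwa [pow_mul, ← hq] at this
  have hθ3 : ¬ Fix (q ^ 3) θ := fun h3 => hθ1 (hθ.of_two_three h3)
  have hϑ2 : ¬ Fix ((q ^ 2) ^ 2) ϑ' := fun h2 => hϑ' (h2.of_two_three hϑ)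
  obtain ⟨Z', X', hZ's, hX's, cZ, cX', hne⟩ := split K X (fun z => (θ + z) ^ M q)
    (fun α => (R (q ^ 2) α ϑ' / R (q ^ 2) θ' ϑ') ^ M q) (q + 1)
    (fun v => fiber_T hFr hθ3 K hK' v) (by
      rw [cK]
      nlinarith [Nat.mul_le_mul hq2 hq2])
  refine ⟨Z', X', fun z hz => hK' z (hZ's hz), fun α hα => hX' α (hX's hα), ?_, ?_, ?_⟩
  · rw [← cK]; exact cZ
  · omega
  · intro z hz z' hz' α hα β hβ hzz heq
    have kz := hK' z (hZ's hz)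
    have kz' := hK' z' (hZ's hz')
    have aα := hX' α (hX's hα)
    have aβ := hX' β (hX's hβ)
    have nα := R_ne_of_vc aα.1 aα.2
    have nβ := R_ne_of_vc aβ.1 aβ.2
    have mθ : R (q ^ 2) θ' ϑ' ≠ 0 := R_ne hθ2 hϑ2
    have hz0 : θ + z ≠ 0 := by
      intro h0
      apply hθ3
      have : θ = 0 - z := by linear_combination h0
      rw [this]
      exact Fix.sub (hFr.pow 3) (by unfold Fix; rw [zero_pow (pow_pos hqpos 3).ne']) kz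
    have kz2 : Fix ((q ^ 2) ^ 3) z := by
      have := kz.pow 2
      rw [← pow_mul] at this ⊢
      exact this
    have kz2' : Fix ((q ^ 2) ^ 3) z' := by
      have := kz'.pow 2
      rw [← pow_mul] at this ⊢
      exact this
    obtain ⟨l, hl1, hl2, hl3, hl4⟩ := relT hFr2 (θ := θ) (θ' := θ') (ϑ' := ϑ') (α := α) (β := β)
      (z := z) (z' := z') hθ hθ2 hθ' hϑ hϑ' aα.1 aβ.1 kz2 kz2' nα nβ hzz hz0 (by
        unfold xf at heq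
        field_simp at heq
        linear_combination heq)
    apply hne z hz α hα
    have e1 : (z' - z) ^ M q = 1 := pow_M_K hqpos (Fix.sub (hFr.pow 3) kz' kz)
      (sub_ne_zero.2 hzz.symm)
    have e2 : l ^ M q = 1 := pow_M_E hqpos hl1 hl2
    have e3 : (1 - l) ^ M q = 1 := pow_M_E hqpos (Fix.sub hFr2 Fix.one hl1) hl3
    have e4 := congrArg (fun x => x ^ M q) hl4
    simp only [mul_pow] at e4
    rw [e1, e2, e3, one_mul, one_mul, one_mul] at e4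
    show (θ + z) ^ M q = (R (q ^ 2) α ϑ' / R (q ^ 2) θ' ϑ') ^ M q
    rw [div_pow, e4, mul_div_cancel_left₀ _ (pow_ne_zero _ mθ)]

end

end Pool.Agent.SC
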